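import Mathlib

/-! Definitions used in the statement on the viscous dyadic (Katz-Pavlovic) model. -/

namespace Pool.Agent.Work.MP_6bf1e5_an.Dy

/-- `X` solves the forced viscous dyadic model at all times `t ∈ S`: `X_0 = 0` and, for `n ≥ 1`,
`X_n' = -ν lam^(2n) X_n + lam^(β(n-1)) X_(n-1)^2 - lam^(β n) X_n X_(n+1) + f_n`
(one-sided derivative at `t = 0`). -/
def DyadicSolvesOn (lam β ν : ℝ) (f : ℝ → ℕ → ℝ) (S : Set ℝ) (X : ℝ → ℕ → ℝ) : Prop :=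
  ∀ t ∈ S, X t 0 = 0 ∧ ∀ n : ℕ, HasDerivWithinAt (fun s => X s (n + 1))
    (-ν * lam ^ (2 * (n + 1)) * X t (n + 1) + lam ^ (β * n) * X t n ^ 2
      - lam ^ (β * (n + 1)) * X t (n + 1) * X t (n + 2) + f t (n + 1)) (Set.Ici 0) t

/-- `lam^(γ n) |X_n(t)|` is bounded over all shells `n` and all times `t ∈ S`. -/
def WeightBounded (lam γ : ℝ) (S : Set ℝ) (X : ℝ → ℕ → ℝ) : Prop :=
  ∃ C : ℝ, ∀ t ∈ S, ∀ n : ℕ, lam ^ (γ * n) * |X t n| ≤ C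

/-- `lam^(γ n) |X_n(t)|` tends to `0` as `n → ∞`, uniformly in `t ∈ S`. -/
def WeightVanishes (lam γ : ℝ) (S : Set ℝ) (X : ℝ → ℕ → ℝ) : Prop :=
  ∀ ε : ℝ, 0 < ε → ∃ k : ℕ, ∀ n : ℕ, k ≤ n → ∀ t ∈ S, lam ^ (γ * n) * |X t n| ≤ ε

end Pool.Agent.Work.MP_6bf1e5_an.Dy
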