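import Mathlib

/-! Invariance of finitely many inequalities along differentiable curves, and scalar fences. -/

namespace Pool.Agent.Work.MP_6bf1e5_an.Dy

open Set Filter Topology

theorem inv_finite {ι : Type*} (S : Finset ι) (g g' : ι → ℝ → ℝ) {a b : ℝ}
    (hd : ∀ i ∈ S, ∀ t ∈ Icc a b, HasDerivWithinAt (g i) (g' i t) (Ici a) t)
    (h0 : ∀ i ∈ S, 0 ≤ g i a)
    (hs : ∀ t ∈ Icc a b, (∀ j ∈ S, 0 ≤ g j t) → ∀ i ∈ S, g i t = 0 → 0 < g' i t) :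
    ∀ t ∈ Icc a b, ∀ i ∈ S, 0 ≤ g i t := by
  have hc : ∀ i ∈ S, ContinuousOn (g i) (Icc a b) := fun i hi t ht =>
    (hd i hi t ht).continuousWithinAt.mono Icc_subset_Ici_self
  have hcl : IsClosed ({t | ∀ i ∈ S, 0 ≤ g i t} ∩ Icc a b) := by
    have : {t | ∀ i ∈ S, 0 ≤ g i t} ∩ Icc a b
        = Icc a b ∩ ⋂ i ∈ S, (Icc a b ∩ g i ⁻¹' Ici 0) := by
      ext t
      simp only [mem_inter_iff, mem_ofPred_eq, mem_iInter, mem_preimage, mem_Ici]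
      constructor
      · rintro ⟨h1, h2⟩
        exact ⟨h2, fun i hi => ⟨h2, h1 i hi⟩⟩
      · rintro ⟨h1, h2⟩
        exact ⟨fun i hi => (h2 i hi).2, h1⟩
    rw [this]
    exact isClosed_Icc.inter (isClosed_biInter fun i hi =>
      (hc i hi).preimage_isClosed_of_isClosed isClosed_Icc isClosed_Ici)
  refine hcl.Icc_subset_of_forall_mem_nhdsWithin h0 ?_
  rintro x ⟨hx, hxa, hxb⟩
  have hsub : Ioi x ⊆ Ici a := fun y hy => le_of_lt (lt_of_le_of_lt hxa hy)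
  refine (Filter.eventually_all_finset S).2 fun i hi => ?_
  have hD := (hd i hi x ⟨hxa, hxb.le⟩).mono hsub
  rcases eq_or_lt_of_le (hx i hi) with h | h
  · have hpos := hs x ⟨hxa, hxb.le⟩ hx i hi h.symm
    have ht := hasDerivWithinAt_iff_tendsto_slope' (by simp : x ∉ Ioi x) |>.1 hD
    filter_upwards [ht.eventually (lt_mem_nhds hpos), self_mem_nhdsWithin] with y hy hyx
    rw [slope_def_field, ← h, sub_zero] at hy
    exact (div_pos_iff_of_pos_right (sub_pos.2 hyx)).1 hy |>.le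
  · exact (hD.continuousWithinAt.eventually (lt_mem_nhds h)).mono fun y hy => hy.le

theorem inv_two {ι κ : Type*} (S : Finset ι) (T : Finset κ) (g g' : ι → ℝ → ℝ)
    (f f' : κ → ℝ → ℝ) {a b : ℝ}
    (hd : ∀ i ∈ S, ∀ t ∈ Icc a b, HasDerivWithinAt (g i) (g' i t) (Ici a) t)
    (hd2 : ∀ i ∈ T, ∀ t ∈ Icc a b, HasDerivWithinAt (f i) (f' i t) (Ici a) t)
    (h0 : ∀ i ∈ S, 0 ≤ g i a) (h02 : ∀ i ∈ T, 0 ≤ f i a)
    (hs : ∀ t ∈ Icc a b, (∀ j ∈ S, 0 ≤ g j t) → (∀ j ∈ T, 0 ≤ f j t) →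
      (∀ i ∈ S, g i t = 0 → 0 < g' i t) ∧ (∀ i ∈ T, f i t = 0 → 0 < f' i t)) :
    ∀ t ∈ Icc a b, (∀ i ∈ S, 0 ≤ g i t) ∧ (∀ i ∈ T, 0 ≤ f i t) := by
  intro t ht
  have := inv_finite (S.disjSum T) (Sum.elim g f) (Sum.elim g' f') (a := a) (b := b)
    (by simpa only [Sum.forall, Finset.inl_mem_disjSum, Finset.inr_mem_disjSum, Sum.elim_inl,
      Sum.elim_inr] using And.intro hd hd2) (by simpa [Sum.forall] using ⟨h0, h02⟩)
    (by
      intro s hs' h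
      simp only [Sum.forall, Finset.inl_mem_disjSum, Finset.inr_mem_disjSum, Sum.elim_inl,
        Sum.elim_inr] at h ⊢
      exact hs s hs' h.1 h.2) t ht
  simpa [Sum.forall] using this

theorem inv_five {ι : Type*} (S T : Finset ι) (g1 g1' g2 g2' g3 g3' g4 g4' : ι → ℝ → ℝ)
    (g5 g5' : ℝ → ℝ) {a b : ℝ}
    (hd1 : ∀ i ∈ S, ∀ t ∈ Icc a b, HasDerivWithinAt (g1 i) (g1' i t) (Ici a) t)
    (hd2 : ∀ i ∈ S, ∀ t ∈ Icc a b, HasDerivWithinAt (g2 i) (g2' i t) (Ici a) t)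
    (hd3 : ∀ i ∈ T, ∀ t ∈ Icc a b, HasDerivWithinAt (g3 i) (g3' i t) (Ici a) t)
    (hd4 : ∀ i ∈ T, ∀ t ∈ Icc a b, HasDerivWithinAt (g4 i) (g4' i t) (Ici a) t)
    (hd5 : ∀ t ∈ Icc a b, HasDerivWithinAt g5 (g5' t) (Ici a) t)
    (h1 : ∀ i ∈ S, 0 ≤ g1 i a) (h2 : ∀ i ∈ S, 0 ≤ g2 i a)
    (h3 : ∀ i ∈ T, 0 ≤ g3 i a) (h4 : ∀ i ∈ T, 0 ≤ g4 i a) (h5 : 0 ≤ g5 a)
    (hs : ∀ t ∈ Icc a b, (∀ j ∈ S, 0 ≤ g1 j t) → (∀ j ∈ S, 0 ≤ g2 j t) →
      (∀ j ∈ T, 0 ≤ g3 j t) → (∀ j ∈ T, 0 ≤ g4 j t) → 0 ≤ g5 t →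
      (∀ i ∈ S, g1 i t = 0 → 0 < g1' i t) ∧ (∀ i ∈ S, g2 i t = 0 → 0 < g2' i t) ∧
      (∀ i ∈ T, g3 i t = 0 → 0 < g3' i t) ∧ (∀ i ∈ T, g4 i t = 0 → 0 < g4' i t) ∧
      (g5 t = 0 → 0 < g5' t)) :
    ∀ t ∈ Icc a b, (∀ i ∈ S, 0 ≤ g1 i t) ∧ (∀ i ∈ S, 0 ≤ g2 i t) ∧ 0 ≤ g5 t := by
  intro t ht
  have := inv_two (S.disjSum S) ((T.disjSum T).disjSum ({()} : Finset Unit))
    (Sum.elim g1 g2) (Sum.elim g1' g2')
    (Sum.elim (Sum.elim g3 g4) fun _ => g5) (Sum.elim (Sum.elim g3' g4') fun _ => g5')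
    (a := a) (b := b)
    (by simpa only [Sum.forall, Finset.inl_mem_disjSum, Finset.inr_mem_disjSum, Sum.elim_inl,
      Sum.elim_inr] using And.intro hd1 hd2)
    (by
      simp only [Sum.forall, Finset.inl_mem_disjSum, Finset.inr_mem_disjSum, Sum.elim_inl,
        Sum.elim_inr]
      exact ⟨⟨hd3, hd4⟩, fun _ _ => hd5⟩)
    (by simpa [Sum.forall] using ⟨h1, h2⟩)
    (by
      simp only [Sum.forall, Finset.inl_mem_disjSum, Finset.inr_mem_disjSum, Sum.elim_inl,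
        Sum.elim_inr]
      exact ⟨⟨h3, h4⟩, fun _ _ => h5⟩)
    (by
      intro s hs' h h'
      simp only [Sum.forall, Finset.inl_mem_disjSum, Finset.inr_mem_disjSum, Sum.elim_inl,
        Sum.elim_inr] at h h' ⊢
      have := hs s hs' h.1 h.2 h'.1.1 h'.1.2 (h'.2 () (by simp))
      exact ⟨⟨this.1, this.2.1⟩, ⟨this.2.2.1, this.2.2.2.1⟩, fun _ _ => this.2.2.2.2⟩) t ht
  simp only [Sum.forall, Finset.inl_mem_disjSum, Finset.inr_mem_disjSum, Sum.elim_inl,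
    Sum.elim_inr] at this
  exact ⟨this.1.1, this.1.2, this.2.2 () (by simp)⟩

theorem abs_fence {f f' B B' : ℝ → ℝ} {a b : ℝ}
    (hf : ∀ t ∈ Icc a b, HasDerivWithinAt f (f' t) (Ici a) t)
    (hB : ∀ t, HasDerivAt B (B' t) t) (h0 : |f a| ≤ B a)
    (h1 : ∀ t ∈ Icc a b, f t = B t → f' t < B' t)
    (h2 : ∀ t ∈ Icc a b, f t = -B t → -B' t < f' t) : ∀ t ∈ Icc a b, |f t| ≤ B t := by
  intro t ht
  have := inv_two ({()} : Finset Unit) ({()} : Finset Unit) (fun _ t => B t - f t)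
    (fun _ t => B' t - f' t) (fun _ t => B t + f t) (fun _ t => B' t + f' t) (a := a) (b := b)
    (fun _ _ s hs => (hB s).hasDerivWithinAt.sub (hf s hs))
    (fun _ _ s hs => (hB s).hasDerivWithinAt.add (hf s hs))
    (fun _ _ => by linarith [(abs_le.1 h0).2]) (fun _ _ => by linarith [(abs_le.1 h0).1])
    (fun s hs _ _ => ⟨fun _ _ h => by linarith [h1 s hs (by linarith)],
      fun _ _ h => by linarith [h2 s hs (by linarith)]⟩) t ht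
  have ha := this.1 () (by simp)
  have hb := this.2 () (by simp)
  rw [abs_le]
  constructor <;> linarith

theorem lip_fence {f f' : ℝ → ℝ} {a b K : ℝ}
    (hf : ∀ t ∈ Icc a b, HasDerivWithinAt f (f' t) (Ici a) t)
    (hK : ∀ t ∈ Icc a b, |f' t| ≤ K) : ∀ t ∈ Icc a b, |f t - f a| ≤ K * (t - a) := by
  intro t ht
  have := norm_image_sub_le_of_norm_deriv_right_le_segment (f := f) (f' := f') (C := K)
    (a := a) (b := b)
    (fun s hs => (hf s hs).continuousWithinAt.mono Icc_subset_Ici_self)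
    (fun s hs => (hf s ⟨hs.1, hs.2.le⟩).mono (Ici_subset_Ici.2 hs.1))
    (fun s hs => hK s ⟨hs.1, hs.2.le⟩) t ht
  simpa using this

end Pool.Agent.Work.MP_6bf1e5_an.Dy
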