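import Pool.Agent.Work.MP_6bf1e5_an.Dy.Limit

/-! Bootstrap: decay of the tail, persistence of regularity, smoothing and uniqueness. -/

namespace Pool.Agent.Work.MP_6bf1e5_an.Dy

open Set Filter Topology

noncomputable section

variable {ν L ρ : ℝ} {f Y Z : ℝ → ℕ → ℝ}

theorem Sol.fence (h : Sol ν L ρ f Y) (hν : 0 < ν) (hL : 1 < L) (hρ0 : 0 < ρ) (hρ1 : ρ ≤ 1)
    (n : ℕ) {a : ℝ} (ha : 0 ≤ a) {B B' : ℝ → ℝ} (hB : ∀ t, HasDerivAt B (B' t) t)
    (hB0 : ∀ t, 0 ≤ B t) (h0 : |Y a (n+1)| ≤ B a) (h1 : ∀ t, a ≤ t → |Y t (n+2)| ≤ 1/4)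
    (h2 : ∀ t, a ≤ t → ν*L^(n+1)*(Y t n^2 + |f t (n+1)| - 3/4*B t) < B' t) :
    ∀ t, a ≤ t → |Y t (n+1)| ≤ B t := by
  intro t ht
  have hR : 0 < ν*L^(n+1) := by positivity
  refine abs_fence (f := fun s => Y s (n+1)) (f' := fun s => FF ν L ρ (Y s) (f s) (n+1))
    (a := a) (b := t) (fun s hs => (h.ode s (ha.trans hs.1) (n+1) (by omega)).mono
      (Ici_subset_Ici.2 ha)) hB h0 (fun s hs e => ?_) (fun s hs e => ?_) t ⟨ht, le_rfl⟩
  · refine lt_of_le_of_lt ?_ (h2 s hs.1)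
    unfold FF DD
    refine mul_le_mul_of_nonneg_left ?_ hR.le
    have h3 := mul_le_mul_of_nonneg_left (abs_le.1 (h1 s hs.1)).1 (hB0 s)
    have h4 := mul_le_mul_of_nonneg_right hρ1 (sq_nonneg (Y s n))
    have h5 := le_abs_self (f s (n+1))
    rw [Nat.add_sub_cancel, e]
    linarith
  · refine lt_of_lt_of_le (neg_lt_neg (h2 s hs.1)) ?_
    unfold FF DD
    rw [← mul_neg]
    refine mul_le_mul_of_nonneg_left ?_ hR.le
    have h3 := mul_le_mul_of_nonneg_left (abs_le.1 (h1 s hs.1)).1 (hB0 s)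
    have h4 := mul_nonneg hρ0.le (sq_nonneg (Y s n))
    have h5 := neg_abs_le (f s (n+1))
    have h6 := sq_nonneg (Y s n)
    rw [Nat.add_sub_cancel, e]
    linarith

theorem Sol.fence_const (h : Sol ν L ρ f Y) (hν : 0 < ν) (hL : 1 < L) (hρ0 : 0 < ρ) (hρ1 : ρ ≤ 1)
    (n : ℕ) {B : ℝ} (hB0 : 0 < B) (h0 : |Y 0 (n+1)| ≤ B) (h1 : ∀ t, 0 ≤ t → |Y t (n+2)| ≤ 1/4)
    (h2 : ∀ t, 0 ≤ t → Y t n^2 ≤ B/2) (h3 : ∀ t, 0 ≤ t → |f t (n+1)| ≤ B/8) :
    ∀ t, 0 ≤ t → |Y t (n+1)| ≤ B :=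
  h.fence hν hL hρ0 hρ1 n le_rfl (B := fun _ => B) (B' := fun _ => 0)
    (fun t => hasDerivAt_const t B) (fun _ => hB0.le) h0 h1 fun t ht =>
      mul_neg_of_pos_of_neg (by positivity) (by linarith [h2 t ht, h3 t ht])

theorem sq_le_mul {x a b : ℝ} (ha : |x| ≤ a) (hb : |x| ≤ b) : x^2 ≤ a*b := by
  rw [← sq_abs, sq]
  exact mul_le_mul ha hb (abs_nonneg _) ((abs_nonneg _).trans ha)

theorem Sol.tail (h : Sol ν L ρ f Y) (hν : 0 < ν) (hL : 1 < L) (hρ0 : 0 < ρ) (hρ1 : ρ ≤ 1)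
    {n0 : ℕ} (hb : ∀ t, 0 ≤ t → ∀ n, n0 ≤ n → |Y t n| ≤ 1/4)
    (hy : ∀ ε > 0, ∃ k, ∀ n, k ≤ n → |Y 0 n| ≤ ε)
    (hf : ∀ ε > 0, ∃ k, ∀ n, k ≤ n → ∀ t, 0 ≤ t → |f t n| ≤ ε) :
    ∀ ε > 0, ∃ k, ∀ n, k ≤ n → ∀ t, 0 ≤ t → |Y t n| ≤ ε := by
  intro ε hε
  obtain ⟨k1, hk1⟩ := hy ε hε
  obtain ⟨k2, hk2⟩ := hf (ε/8) (by positivity)
  have key : ∀ j, ∀ t, 0 ≤ t → |Y t (n0+k1+k2+j)| ≤ max ε ((1/2)^j) := by
    intro j
    induction j with
    | zero => exact fun t ht => le_max_of_le_right ((hb t ht _ (by omega)).trans (by norm_num))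
    | succ j ih =>
      have h1 := le_max_left ε ((1/2)^(j+1))
      have h2 := le_max_right ε ((1/2)^(j+1))
      refine h.fence_const hν hL hρ0 hρ1 (n0+k1+k2+j) (by linarith)
        ((hk1 _ (by omega)).trans h1) (fun t ht => hb t ht _ (by omega)) (fun t ht => ?_)
        (fun t ht => (hk2 _ (by omega) t ht).trans (by linarith))
      have h3 : max ε ((1/2)^j) ≤ 2 * max ε ((1/2)^(j+1)) :=
        max_le (by linarith) (by linarith [pow_succ (1/2:ℝ) j])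
      linarith [sq_le_mul (hb t ht (n0+k1+k2+j) (by omega)) (ih t ht)]
  obtain ⟨j0, hj0⟩ := exists_pow_lt_of_lt_one hε (by norm_num : (1/2:ℝ) < 1)
  refine ⟨n0+k1+k2+j0, fun n hn t ht => ?_⟩
  obtain ⟨j, rfl⟩ : ∃ j, n = n0+k1+k2+j := ⟨n - (n0+k1+k2), by omega⟩
  refine (key j t ht).trans (max_le le_rfl (le_trans ?_ hj0.le))
  exact pow_le_pow_of_le_one (by norm_num) (by norm_num) (by omega)

theorem low_bound {μ B : ℝ} (hμ : 0 < μ) {x : ℝ} {n k : ℕ} (hn : n ≤ k) (hx : |x| ≤ B) :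
    |x| ≤ (max 1 μ)^k * B / μ^n := by
  rw [le_div_iff₀ (by positivity), mul_comm]
  exact mul_le_mul ((pow_le_pow_left₀ hμ.le (le_max_right _ _) n).trans
    (pow_le_pow_right₀ (le_max_left _ _) hn)) hx (abs_nonneg _) (by positivity)

theorem Sol.persist (h : Sol ν L ρ f Y) (hν : 0 < ν) (hL : 1 < L) (hρ0 : 0 < ρ) (hρ1 : ρ ≤ 1)
    {B : ℝ} (hB : ∀ t, 0 ≤ t → ∀ n, |Y t n| ≤ B)
    (htail : ∀ ε > 0, ∃ k, ∀ n, k ≤ n → ∀ t, 0 ≤ t → |Y t n| ≤ ε) {μ C1 C2 : ℝ} (hμ : 0 < μ)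
    (hy : ∀ n, |Y 0 n| ≤ C1 / μ^n) (hf : ∀ t, 0 ≤ t → ∀ n, |f t n| ≤ C2 / μ^n) :
    ∃ C, ∀ t, 0 ≤ t → ∀ n, |Y t n| ≤ C / μ^n := by
  obtain ⟨k1, hk1⟩ := htail (1/4) (by norm_num)
  obtain ⟨k2, hk2⟩ := htail (1/(2*μ)) (by positivity)
  obtain ⟨C, hC0, hC1, hC2, hC3⟩ : ∃ C, 0 < C ∧ C1 ≤ C ∧ 8*C2 ≤ C ∧ (max 1 μ)^(k1+k2) * B ≤ C :=
    ⟨max (max 1 C1) (max (8*C2) _), lt_max_of_lt_left (lt_max_of_lt_left one_pos),
      le_max_of_le_left (le_max_right _ _), le_max_of_le_right (le_max_left _ _),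
      le_max_of_le_right (le_max_right _ _)⟩
  have hlow : ∀ n ≤ k1+k2, ∀ t, 0 ≤ t → |Y t n| ≤ C / μ^n := fun n hn t ht =>
    (low_bound hμ hn (hB t ht n)).trans (div_le_div_of_nonneg_right hC3 (by positivity))
  have key : ∀ n, ∀ t, 0 ≤ t → |Y t n| ≤ C / μ^n := by
    intro n
    induction n with
    | zero => exact hlow 0 (Nat.zero_le _)
    | succ n ih =>
      rcases le_or_gt (n+1) (k1+k2) with hn | hn
      · exact hlow _ hn
      refine h.fence_const hν hL hρ0 hρ1 n (by positivity)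
        ((hy _).trans (div_le_div_of_nonneg_right hC1 (by positivity)))
        (fun t ht => hk1 _ (by omega) t ht) (fun t ht => ?_) (fun t ht => (hf t ht _).trans ?_)
      · refine (sq_le_mul (hk2 n (by omega) t ht) (ih t ht)).trans (le_of_eq ?_)
        field_simp
        ring
      · rw [div_right_comm]
        exact div_le_div_of_nonneg_right (by linarith) (by positivity)
  exact ⟨C, fun t ht n => key n t ht⟩

theorem exists_exp_bound {μ c r : ℝ} (hμ : 0 < μ) (hc : 0 < c) (hr : 1 < r) :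
    ∃ D, ∀ n : ℕ, Real.exp (-(c*r^n)) ≤ D / μ^n := by
  obtain ⟨p, hp⟩ := pow_unbounded_of_one_lt μ hr
  refine ⟨p.factorial / c^p, fun n => ?_⟩
  have h1 := Real.pow_div_factorial_le_exp (c*r^n) (by positivity) p
  have h2 : μ^n ≤ (r^n)^p := by
    rw [← pow_mul, mul_comm n p, pow_mul]
    exact pow_le_pow_left₀ hμ.le hp.le n
  have h3 : (0:ℝ) < p.factorial := by positivity
  rw [div_le_iff₀ h3, mul_pow] at h1
  rw [Real.exp_neg, le_div_iff₀ (by positivity), le_div_iff₀ (by positivity),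
    mul_assoc, inv_mul_le_iff₀ (Real.exp_pos _)]
  have h4 := mul_le_mul_of_nonneg_left h2 (by positivity : 0 ≤ c^p)
  linarith

theorem Sol.smooth (h : Sol ν L ρ f Y) (hν : 0 < ν) (hL : 1 < L) (hρ0 : 0 < ρ) (hρ1 : ρ ≤ 1)
    {B : ℝ} (hB : ∀ t, 0 ≤ t → ∀ n, |Y t n| ≤ B)
    (htail : ∀ ε > 0, ∃ k, ∀ n, k ≤ n → ∀ t, 0 ≤ t → |Y t n| ≤ ε) {μ C2 t1 : ℝ} (hμ : 0 < μ)
    (ht1 : 0 < t1) (hf : ∀ t, 0 ≤ t → ∀ n, |f t n| ≤ C2 / μ^n) :
    ∃ C, ∀ t, t1 ≤ t → ∀ n, |Y t n| ≤ C / μ^n := by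
  obtain ⟨k1, hk1⟩ := htail (1/4) (by norm_num)
  obtain ⟨k2, hk2⟩ := htail (1/(8*μ)) (by positivity)
  obtain ⟨q, hq0, hq1, hqL⟩ : ∃ q : ℝ, 0 < q ∧ q < 1 ∧ 1 < L*q :=
    ⟨(L+1)/(2*L), by positivity, by rw [div_lt_one (by positivity)]; linarith, by
      rw [mul_div_assoc', lt_div_iff₀ (by positivity)]; nlinarith⟩
  have hq2 : 0 < 1 - q := by linarith
  obtain ⟨D, hD⟩ := exists_exp_bound hμ (by positivity : 0 < ν*t1*(1-q)/4) hqL
  obtain ⟨C, hC0, hC1, hC2, hC3⟩ : ∃ C, 0 < C ∧ D ≤ C ∧ 8*C2 ≤ C ∧ (max 1 μ)^(k1+k2) * B ≤ C :=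
    ⟨max (max 1 D) (max (8*C2) _), lt_max_of_lt_left (lt_max_of_lt_left one_pos),
      le_max_of_le_left (le_max_right _ _), le_max_of_le_right (le_max_left _ _),
      le_max_of_le_right (le_max_right _ _)⟩
  have hτ0 : ∀ n : ℕ, 0 ≤ t1*(1 - q^n) := fun n =>
    mul_nonneg ht1.le (sub_nonneg.2 (pow_le_one₀ hq0.le hq1.le))
  have hlow : ∀ n ≤ k1+k2, ∀ t, 0 ≤ t → |Y t n| ≤ C / μ^n := fun n hn t ht =>
    (low_bound hμ hn (hB t ht n)).trans (div_le_div_of_nonneg_right hC3 (by positivity))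
  have key : ∀ n : ℕ, ∀ t, t1*(1 - q^n) ≤ t → |Y t n| ≤ C / μ^n := by
    intro n
    induction n with
    | zero => exact fun t ht => hlow 0 (Nat.zero_le _) t ((hτ0 0).trans ht)
    | succ n ih =>
      rcases le_or_gt (n+1) (k1+k2) with hn | hn
      · exact fun t ht => hlow _ hn t ((hτ0 _).trans ht)
      have ha := hτ0 n
      set a := t1*(1 - q^n) with ha'
      set R := ν*L^(n+1) with hR'
      have hR : 0 < R := by positivity
      have hP : 0 < C / μ^(n+1) := by positivity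
      have := h.fence hν hL hρ0 hρ1 n ha
        (B := fun t => Real.exp (-(R/4*(t-a)))/4 + C / μ^(n+1)/2)
        (B' := fun t => Real.exp (-(R/4*(t-a))) * (-(R/4))/4)
        (fun t => by
          have h1 : HasDerivAt (fun t => -(R/4*(t-a))) (-(R/4)) t := by
            simpa using (((hasDerivAt_id t).sub_const a).const_mul (R/4)).fun_neg
          exact (h1.exp.div_const 4).add_const _)
        (fun t => by positivity)
        (by
          have := hk1 (n+1) (by omega) a ha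
          simp only [sub_self, mul_zero, neg_zero, Real.exp_zero]
          linarith)
        (fun t ht => hk1 _ (by omega) t (ha.trans ht))
        (fun t ht => by
          have h1 : Y t n^2 ≤ C / μ^(n+1)/8 := by
            refine (sq_le_mul (hk2 n (by omega) t (ha.trans ht)) (ih t ht)).trans (le_of_eq ?_)
            field_simp
            ring
          have h2 : |f t (n+1)| ≤ C / μ^(n+1)/8 := by
            refine (hf t (ha.trans ht) _).trans ?_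
            rw [div_right_comm]
            exact div_le_div_of_nonneg_right (by linarith) (by positivity)
          have h3 := Real.exp_pos (-(R/4*(t-a)))
          have h4 : Y t n^2 + |f t (n+1)|
              - 3/4*(Real.exp (-(R/4*(t-a)))/4 + C / μ^(n+1)/2)
              < -(Real.exp (-(R/4*(t-a)))/16) := by linarith
          have h5 := mul_lt_mul_of_pos_left h4 hR
          linarith)
      intro t ht
      have h1 : t1*(1-q)*q^(n+1) ≤ t - a := by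
        have h0 : 0 ≤ t1*(1-q)^2*q^n := by positivity
        rw [ha']
        rw [pow_succ] at ht ⊢
        linarith
      have h2 : 0 < t1*(1-q)*q^(n+1) := by positivity
      refine (this t (by linarith)).trans ?_
      have h3 : ν*t1*(1-q)/4*(L*q)^(n+1) ≤ R/4*(t-a) := by
        have h5 := mul_le_mul_of_nonneg_left h1 hR.le
        rw [mul_pow]
        rw [hR'] at h5 ⊢
        linarith
      have h4 := (Real.exp_le_exp.2 (neg_le_neg h3)).trans (hD (n+1))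
      have h5 : D / μ^(n+1) ≤ C / μ^(n+1) := div_le_div_of_nonneg_right hC1 (by positivity)
      linarith
  refine ⟨C, fun t ht n => key n t (le_trans ?_ ht)⟩
  have : 0 ≤ t1*q^n := by positivity
  linarith

theorem DD_sub_le {ρ w x y w' x' y' g A B : ℝ} (hρ0 : 0 ≤ ρ) (hρ1 : ρ ≤ 1) (hw : |w| ≤ A)
    (hw' : |w'| ≤ A) (hx : |x| ≤ A) (hy' : |y'| ≤ A) (dw : |w - w'| ≤ 2*B) (dy : |y - y'| ≤ 2*B)
    (dx : |x - x'| ≤ B) : |DD ρ w x y g - DD ρ w' x' y' g + (x - x')| ≤ 7*A*B := by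
  have hρ : |ρ| ≤ 1 := abs_le.2 ⟨by linarith, hρ1⟩
  have h1 := abs_le.1 (abs_mul_le hρ (abs_mul_le hw dw))
  have h2 := abs_le.1 (abs_mul_le hρ (abs_mul_le hw' dw))
  have h3 := abs_le.1 (abs_mul_le hx dy)
  have h4 := abs_le.1 (abs_mul_le hy' dx)
  unfold DD
  rw [abs_le]
  constructor <;> linarith [h1.1, h1.2, h2.1, h2.2, h3.1, h3.2, h4.1, h4.2]

/-- Solutions of the rescaled system on `[0, T]`. -/
structure SolOn (ν L ρ : ℝ) (f : ℝ → ℕ → ℝ) (T : ℝ) (Y : ℝ → ℕ → ℝ) : Prop where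
  zero : ∀ t ∈ Icc 0 T, Y t 0 = 0
  ode : ∀ t ∈ Icc 0 T, ∀ n, 1 ≤ n →
    HasDerivWithinAt (fun s => Y s n) (FF ν L ρ (Y t) (f t) n) (Ici 0) t

theorem Sol.on (h : Sol ν L ρ f Y) (T : ℝ) : SolOn ν L ρ f T Y :=
  ⟨fun t ht => h.zero t ht.1, fun t ht => h.ode t ht.1⟩

theorem SolOn.bdd {T : ℝ} (h : SolOn ν L ρ f T Y) {k : ℕ}
    (hk : ∀ n, k ≤ n → ∀ t ∈ Icc 0 T, |Y t n| ≤ 1/8) :
    ∃ M, 0 < M ∧ ∀ n, ∀ t ∈ Icc 0 T, |Y t n| ≤ M := by
  have h1 : ∀ n, ∃ M, ∀ t ∈ Icc 0 T, |Y t n| ≤ M := fun n => by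
    rcases Nat.eq_zero_or_pos n with rfl | hn
    · exact ⟨0, fun t ht => by rw [h.zero t ht, abs_zero]⟩
    · exact isCompact_Icc.exists_bound_of_continuousOn (f := fun s => Y s n) fun t ht =>
        (h.ode t ht n hn).continuousWithinAt.mono Icc_subset_Ici_self
  choose M hM using h1
  have h2 : 0 ≤ ∑ n ∈ Finset.range k, |M n| := by positivity
  refine ⟨∑ n ∈ Finset.range k, |M n| + 1, by linarith, fun n t ht => ?_⟩
  rcases le_or_gt k n with hn | hn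
  · linarith [hk n hn t ht]
  · have := Finset.single_le_sum (f := fun n => |M n|) (fun n _ => abs_nonneg _)
      (Finset.mem_range.2 hn)
    linarith [hM n t ht, le_abs_self (M n)]

theorem SolOn.unique {T : ℝ} (hY : SolOn ν L ρ f T Y) (hZ : SolOn ν L ρ f T Z) (hν : 0 < ν)
    (hL : 1 < L) (hρ0 : 0 < ρ) (hρ1 : ρ ≤ 1) (h0 : Y 0 = Z 0) {k : ℕ}
    (hk : ∀ n, k ≤ n → ∀ t ∈ Icc 0 T, |Y t n| ≤ 1/8)
    (hk' : ∀ n, k ≤ n → ∀ t ∈ Icc 0 T, |Z t n| ≤ 1/8) : ∀ t ∈ Icc 0 T, Y t = Z t := by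
  obtain ⟨M1, hM1, hb1⟩ := hY.bdd hk
  obtain ⟨M2, hM2, hb2⟩ := hZ.bdd hk'
  set M := M1 + M2 with hM
  have hM0 : 0 < M := by positivity
  have hbY : ∀ n, ∀ t ∈ Icc 0 T, |Y t n| ≤ M := fun n t ht => by linarith [hb1 n t ht]
  have hbZ : ∀ n, ∀ t ∈ Icc 0 T, |Z t n| ≤ M := fun n t ht => by linarith [hb2 n t ht]
  set K := ν*L^k*(7*M) with hK
  have hK0 : 0 < K := by positivity
  have key : ∀ j : ℕ, ∀ n, ∀ t ∈ Icc 0 T, |Y t n - Z t n| ≤ M*(1/2)^j*Real.exp (K*t) := by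
    intro j
    induction j with
    | zero =>
      intro n t ht
      have h1 := Real.one_le_exp (mul_nonneg hK0.le ht.1)
      have h2 := abs_sub (Y t n) (Z t n)
      have h3 := mul_le_mul_of_nonneg_left h1 hM0.le
      linarith [hb1 n t ht, hb2 n t ht]
    | succ j ih =>
      intro n
      rcases Nat.eq_zero_or_pos n with rfl | hn
      · intro t ht
        rw [hY.zero t ht, hZ.zero t ht, sub_zero, abs_zero]
        positivity
      have hR : 0 < ν*L^n := by positivity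
      have hdiff : ∀ t ∈ Icc 0 T, |Y t n - Z t n| ≤ M*(1/2)^(j+1)*Real.exp (K*t) →
          ∃ A, ν*L^n*(7*A - 1) < K ∧
          |DD ρ (Y t (n-1)) (Y t n) (Y t (n+1)) (f t n)
            - DD ρ (Z t (n-1)) (Z t n) (Z t (n+1)) (f t n) + (Y t n - Z t n)|
            ≤ 7*A*(M*(1/2)^(j+1)*Real.exp (K*t)) := by
        intro t ht hx
        have e : M*(1/2)^j*Real.exp (K*t) = 2*(M*(1/2)^(j+1)*Real.exp (K*t)) := by ring
        rcases le_or_gt n k with h | h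
        · refine ⟨M, ?_, DD_sub_le hρ0.le hρ1 (hbY _ t ht) (hbZ _ t ht) (hbY _ t ht) (hbZ _ t ht)
            (e ▸ ih _ t ht) (e ▸ ih _ t ht) hx⟩
          have h1 : ν*L^n ≤ ν*L^k :=
            mul_le_mul_of_nonneg_left (pow_le_pow_right₀ (by linarith) h) hν.le
          have h2 := mul_le_mul_of_nonneg_right h1 (by positivity : 0 ≤ 7*M)
          linarith
        · exact ⟨1/8, by linarith, DD_sub_le hρ0.le hρ1 (hk _ (by omega) t ht)
            (hk' _ (by omega) t ht) (hk _ (by omega) t ht) (hk' _ (by omega) t ht)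
            (e ▸ ih _ t ht) (e ▸ ih _ t ht) hx⟩
      have hBpos : ∀ t, 0 < M*(1/2)^(j+1)*Real.exp (K*t) := fun t => by positivity
      refine abs_fence (f := fun s => Y s n - Z s n)
        (f' := fun s => FF ν L ρ (Y s) (f s) n - FF ν L ρ (Z s) (f s) n)
        (B := fun t => M*(1/2)^(j+1)*Real.exp (K*t))
        (B' := fun t => M*(1/2)^(j+1)*(Real.exp (K*t)*K))
        (fun s hs => (hY.ode s hs n hn).sub (hZ.ode s hs n hn))
        (fun t => by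
          have h1 : HasDerivAt (fun t => K*t) K t := by
            simpa using (hasDerivAt_id t).const_mul K
          exact h1.exp.const_mul _)
        (by rw [h0, sub_self, abs_zero]; positivity) (fun t ht e => ?_) (fun t ht e => ?_)
      · obtain ⟨A, h1, h2⟩ := hdiff t ht (by rw [e, abs_of_pos (hBpos t)])
        have h3 := mul_le_mul_of_nonneg_left (abs_le.1 h2).2 hR.le
        have h4 := mul_lt_mul_of_pos_right h1 (hBpos t)
        unfold FF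
        rw [e] at h3
        linarith
      · obtain ⟨A, h1, h2⟩ := hdiff t ht (by rw [e, abs_neg, abs_of_pos (hBpos t)])
        have h3 := mul_le_mul_of_nonneg_left (abs_le.1 h2).1 hR.le
        have h4 := mul_lt_mul_of_pos_right h1 (hBpos t)
        unfold FF
        rw [e] at h3
        linarith
  intro t ht
  funext n
  have h1 : Tendsto (fun j : ℕ => M*(1/2)^j*Real.exp (K*t)) atTop (𝓝 (M*0*Real.exp (K*t))) :=
    ((tendsto_pow_atTop_nhds_zero_of_lt_one (by norm_num) (by norm_num)).const_mul M).mul_const _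
  have h2 := ge_of_tendsto' h1 fun j => key j n t ht
  rw [mul_zero, zero_mul] at h2
  exact sub_eq_zero.1 (abs_nonpos_iff.1 h2)

end

end Pool.Agent.Work.MP_6bf1e5_an.Dy
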