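import Pool.Agent.Work.MP_6bf1e5_an.Dy.CertC
import Pool.Agent.Work.MP_6bf1e5_an.Dy.CertE

/-! The facets of the invariant region, as inequalities between real numbers. -/

namespace Pool.Agent.Work.MP_6bf1e5_an.Dy

noncomputable section

theorem exists_frac {x c : ℝ} (h0 : 0 ≤ x) (h1 : x ≤ c) : ∃ v, 0 ≤ v ∧ v ≤ 1 ∧ x = c*v := by
  rcases eq_or_lt_of_le (h0.trans h1) with h | h
  · exact ⟨0, le_rfl, zero_le_one, by linarith⟩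
  · exact ⟨x/c, div_nonneg h0 h.le, (div_le_one h).2 h1, by field_simp⟩

theorem PC1_nonneg {ρ h X : ℝ} (hρ0 : 1/4 ≤ ρ) (hρ1 : ρ ≤ 1) (hh : 0 ≤ h) (hX : 0 ≤ X)
    (hs : X + 22/25*h ≤ ρ) : 0 ≤ PC ρ h X (Zb ρ h (Yc ρ h X)) (sw1 ρ h X) := by
  obtain ⟨a, ha⟩ : ∃ a, ρ = 1/4+3/4*a := ⟨(ρ-1/4)*4/3, by ring⟩
  obtain ⟨r, hr0, hr1, hr⟩ := exists_frac (x := 22/25*h) (c := ρ) (by linarith) (by linarith)
  obtain ⟨v, hv0, hv1, hv⟩ := exists_frac (x := X) (c := ρ*(1-r)) hX (by linarith)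
  have hh' : h = ρ*r*(25/22) := by linarith
  rw [hv, hh', ha]
  exact certC1_nonneg a r v (by linarith) (by linarith) hr0 hr1 hv0 hv1

theorem PC2_nonneg {ρ h X : ℝ} (hρ0 : 1/4 ≤ ρ) (hρ1 : ρ ≤ 1) (hh : 0 ≤ h) (hh1 : 7/8*h ≤ ρ)
    (hX : X ≤ 1) (hs : ρ ≤ X + 22/25*h) : 0 ≤ PC ρ h X (Zb ρ h (Yc ρ h X)) (sw2 ρ h) := by
  obtain ⟨a, ha⟩ : ∃ a, ρ = 1/4+3/4*a := ⟨(ρ-1/4)*4/3, by ring⟩
  obtain ⟨r, hr0, hr1, hr⟩ := exists_frac (x := 7/8*h) (c := ρ) (by linarith) (by linarith)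
  obtain ⟨v, hv0, hv1, hv⟩ := exists_frac (x := X - (ρ - 22/25*h)) (c := 1 - (ρ - 22/25*h))
    (by linarith) (by linarith)
  have hh' : h = ρ*r*(8/7) := by linarith
  have hX' : X = (ρ - 22/25*h) + (1 - (ρ - 22/25*h))*v := by linarith
  rw [hX', hh', ha]
  exact certC2_nonneg a r v (by linarith) (by linarith) hr0 hr1 hv0 hv1

theorem T1C_nonneg {ρ h X : ℝ} (hρ0 : 1/4 ≤ ρ) (hρ1 : ρ ≤ 1) (hh : 0 ≤ h) (hh1 : 7/8*h ≤ ρ)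
    (hX0 : 0 ≤ X) (hX : X ≤ 1) : 0 ≤ T1C ρ h X (Zb ρ h (Yc ρ h X)) := by
  obtain ⟨a, ha⟩ : ∃ a, ρ = 1/4+3/4*a := ⟨(ρ-1/4)*4/3, by ring⟩
  obtain ⟨r, hr0, hr1, hr⟩ := exists_frac (x := 7/8*h) (c := ρ) (by linarith) (by linarith)
  have hh' : h = ρ*r*(8/7) := by linarith
  rw [hh', ha]
  exact certCT_nonneg a r X (by linarith) (by linarith) hr0 hr1 hX0 hX

theorem PC0_nonneg {ρ h X : ℝ} (hρ0 : 0 ≤ ρ) (hρ1 : ρ ≤ 1/4) (hh : 0 ≤ h) (hh1 : 7/8*h ≤ ρ)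
    (hX0 : 0 ≤ X) (hX : X ≤ 1) : 0 ≤ PC ρ h X 1 (sw2 ρ h) ∧ 0 ≤ T1C ρ h X 1 := by
  obtain ⟨a, ha⟩ : ∃ a, ρ = a/4 := ⟨ρ*4, by ring⟩
  obtain ⟨r, hr0, hr1, hr⟩ := exists_frac (x := 7/8*h) (c := ρ) (by linarith) (by linarith)
  have hh' : h = ρ*r*(8/7) := by linarith
  rw [hh', ha]
  exact ⟨certC0_nonneg a r X (by linarith) (by linarith) hr0 hr1 hX0 hX,
    certC0b_nonneg a r X (by linarith) (by linarith) hr0 hr1 hX0 hX⟩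

theorem PE_nonneg {ρ h ξ : ℝ} (hρ0 : 1/4 ≤ ρ) (hρ1 : ρ ≤ 1) (hh : 0 ≤ h) (hh1 : h ≤ 4)
    (h0 : 0 ≤ ξ) (h1 : ξ ≤ xg ρ - 9/200*h) : 0 ≤ PE ρ h ξ ∧ 0 ≤ T1E ρ h ξ := by
  obtain ⟨a, ha⟩ : ∃ a, ρ = 1/4+3/4*a := ⟨(ρ-1/4)*4/3, by ring⟩
  obtain ⟨r, hr⟩ : ∃ r, h = 4*r := ⟨h/4, by ring⟩
  obtain ⟨v, hv0, hv1, hv⟩ := exists_frac h0 h1
  have hξ : ξ = v*(xg ρ - 9/50*r) := by rw [hv, hr]; ring
  rw [hξ, hr, ha]
  exact ⟨certE_nonneg a r v (by linarith) (by linarith) (by linarith) (by linarith) hv0 hv1,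
    certEb_nonneg a r v (by linarith) (by linarith) (by linarith) (by linarith) hv0 hv1⟩

/-- Slope of the upper facet; the facet is switched off for small `ρ`. -/
def tau (ρ : ℝ) : ℝ := if ρ ≤ 1/4 then 0 else 27/50

theorem tau_nonneg (ρ : ℝ) : 0 ≤ tau ρ := by unfold tau; split_ifs <;> norm_num
theorem tau_le (ρ : ℝ) : tau ρ ≤ 27/50 := by unfold tau; split_ifs <;> norm_num
theorem sig_ge {ρ : ℝ} (h : ρ ≤ 1) : 53/50 ≤ sig ρ := by unfold sig; linarith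
theorem sig_le {ρ : ℝ} (h : 0 ≤ ρ) : sig ρ ≤ 73/50 := by unfold sig; linarith
theorem xg_le_one {ρ : ℝ} (h : ρ ≤ 1) : xg ρ ≤ 1 := by
  unfold xg; nlinarith [sq_nonneg (1-ρ)]
theorem tau_xg_le {ρ : ℝ} (h : ρ ≤ 1) : tau ρ * xg ρ ≤ 27/50 := by
  have h1 := mul_le_mul_of_nonneg_left (xg_le_one h) (tau_nonneg ρ)
  linarith [tau_le ρ]

theorem coreC {ρ h L W X Y Z φ ψ : ℝ} (hρ0 : 0 < ρ) (hρ1 : ρ ≤ 1) (hh : 0 < h) (hh1 : h ≤ 4)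
    (hL : 4 ≤ L) (hW : W^2 ≤ (1+h/200)^2) (hC : ρ*sig ρ*W^2 ≤ sw1 ρ h X)
    (hX0 : -(h/200) ≤ X) (hX1 : X ≤ 1) (hY : Y = Yc ρ h X) (hY0 : -(h/200) ≤ Y)
    (hZ0 : -(h/200) ≤ Z) (hZ1 : Z ≤ 1) (hZ : Z ≤ 1 - tau ρ*xg ρ + tau ρ*Y + 27/1000*h)
    (hφ : φ ≤ h^2/2000) (hψ : -(h^2/2000) ≤ ψ) :
    0 < L*(ρ*X^2 - Y*Z - h*Y + ψ) - 2*ρ*sig ρ*X*(ρ*W^2 - X*Y - h*X + φ) := by
  have hs0 := sig_ge hρ1
  have hs1 := sig_le hρ0.le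
  have hρσ : 0 < ρ*sig ρ := by positivity
  have hρσ1 : ρ*sig ρ ≤ 73/50 := by nlinarith
  have hρσ2 : 0 ≤ ρ*(sig ρ-1) := mul_nonneg hρ0.le (by linarith)
  have hYe : Y = ρ*sig ρ*X^2 - ρ*(sig ρ-1) - 22/25*h := by rw [hY, Yc]; ring
  have hXpos : 0 ≤ X := by
    by_contra hc
    have h1 : X^2 ≤ h/200*(4/200) := by nlinarith
    have h2 := mul_le_mul hρσ1 h1 (sq_nonneg X) (by norm_num)
    linarith
  have hh2 : 7/8*h ≤ ρ := by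
    have h1 : X^2 ≤ 1 := by nlinarith
    have h2 := mul_le_mul_of_nonneg_left h1 hρσ.le
    linarith
  have hC2 : ρ*sig ρ*W^2 ≤ sw2 ρ h := mul_le_mul_of_nonneg_left hW hρσ.le
  have key : ∀ Z' S, Z ≤ Z' → ρ*sig ρ*W^2 ≤ S → 0 ≤ PC ρ h X Z' S → 0 ≤ T1C ρ h X Z' →
      0 < L*(ρ*X^2 - Y*Z - h*Y + ψ) - 2*ρ*sig ρ*X*(ρ*W^2 - X*Y - h*X + φ) := by
    intro Z' S h1 h2 h3 h4
    have h5 : T1C ρ h X Z' ≤ ρ*X^2 - Y*Z - h*Y + ψ := by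
      have h6 := mul_le_mul_of_nonneg_left h1 (by linarith : 0 ≤ Y + h/200)
      have h7 := mul_le_mul_of_nonneg_left hZ0 hh.le
      unfold T1C
      rw [← hY]
      linarith
    have h6 : 4*T1C ρ h X Z' ≤ L*(ρ*X^2 - Y*Z - h*Y + ψ) :=
      mul_le_mul hL h5 h4 (by linarith)
    have h7 : sig ρ*(ρ*W^2 - X*Y - h*X + φ) ≤ S - sig ρ*(X*Y + h*X - h^2/2000) := by
      have := mul_le_mul_of_nonneg_left hφ (by linarith : 0 ≤ sig ρ)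
      linarith
    have h8 := mul_le_mul_of_nonneg_left h7 (by positivity : 0 ≤ 2*ρ*X)
    have h9 := mul_pos hρ0 hh
    unfold PC at h3
    rw [← hY] at h3
    linarith
  by_cases hρ : ρ ≤ 1/4
  · obtain ⟨h1, h2⟩ := PC0_nonneg hρ0.le hρ hh.le hh2 hXpos hX1
    exact key _ _ hZ1 hC2 h1 h2
  · have hZ' : Z ≤ Zb ρ h (Yc ρ h X) := by
      rw [tau, if_neg hρ] at hZ
      rw [← hY, Zb]
      linarith
    have hρ' : 1/4 ≤ ρ := (not_le.1 hρ).le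
    have hT := T1C_nonneg hρ' hρ1 hh.le hh2 hXpos hX1
    rcases le_total (X + 22/25*h) ρ with hs | hs
    · exact key _ _ hZ' hC (PC1_nonneg hρ' hρ1 hh.le hXpos hs) hT
    · exact key _ _ hZ' hC2 (PC2_nonneg hρ' hρ1 hh.le hh2 hX1 hs) hT

theorem coreE {ρ h L W X Y Z φ ψ : ℝ} (hρ1 : ρ ≤ 1) (hh : 0 < h) (hh1 : h ≤ 4)
    (hL : 4 ≤ L) (hE : X ≤ (1+h/200)*(1-tau ρ*xg ρ) + tau ρ*W + 27/1000*h)
    (hX0 : -(h/200) ≤ X) (hY : Y = 1 - tau ρ*xg ρ + tau ρ*X + 27/1000*h) (hY1 : Y ≤ 1)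
    (hZ : Yc ρ h Y ≤ Z) (hφ : -(h^2/2000) ≤ φ) (hψ : ψ ≤ h^2/2000) :
    0 < tau ρ*(ρ*W^2 - X*Y - h*X + φ) - L*(ρ*X^2 - Y*Z - h*Y + ψ) := by
  by_cases hρ : ρ ≤ 1/4
  · rw [tau, if_pos hρ] at hY
    linarith
  rw [tau, if_neg hρ] at *
  have hρ' : 1/4 ≤ ρ := (not_le.1 hρ).le
  have hg := xg_le_one hρ1
  obtain ⟨ξ, hξ⟩ : ∃ ξ, X = xg ρ - h/20 - ξ := ⟨xg ρ - h/20 - X, by ring⟩
  have hY' : Y = 1 - 27/50*ξ := by linarith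
  obtain ⟨h1, h2⟩ := PE_nonneg hρ' hρ1 hh.le hh1 (ξ := ξ) (by linarith) (by linarith)
  have hY0 : 0 ≤ Y := by linarith
  have h3 : T1E ρ h ξ ≤ -(ρ*X^2 - Y*Z - h*Y + ψ) := by
    have h4 := mul_le_mul_of_nonneg_left hZ hY0
    unfold T1E
    rw [← hY', ← hξ]
    linarith
  have h4 : 4*T1E ρ h ξ ≤ L*(-(ρ*X^2 - Y*Z - h*Y + ψ)) := mul_le_mul hL h3 h2 (by linarith)
  have h5 : 2*X^2*(X - 27/1000*h - (1+h/200)*(1-27/50*xg ρ)) - 27/50*X^4 ≤ 27/50*W^2 := by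
    have h6 := mul_le_mul_of_nonneg_left hE (sq_nonneg X)
    have h7 := sq_nonneg (W - X^2)
    linarith
  have h6 := mul_le_mul_of_nonneg_left h5 (by linarith : 0 ≤ ρ)
  unfold PE at h1
  rw [← hY', ← hξ] at h1
  linarith

/-- Lower (parabolic) constraint on two consecutive shells. -/
def gC (ρ m x y : ℝ) : ℝ := m*y + 22/25*m + ρ*(sig ρ-1)*m^2 - ρ*sig ρ*x^2

/-- Upper (linear) constraint on two consecutive shells. -/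
def gE (ρ m x y : ℝ) : ℝ := m*(1-tau ρ*xg ρ) + tau ρ*x + 27/1000 - y

/-- The bracket of the rescaled vector field. -/
def DD (ρ w x y f : ℝ) : ℝ := ρ*w^2 - x*y - x + f

theorem gC_mono {ρ m m' x y : ℝ} (hρ0 : 0 ≤ ρ) (hρ1 : ρ ≤ 1) (hm : 0 ≤ m) (hmm : m ≤ m')
    (hy : -(1/200) ≤ y) : gC ρ m x y ≤ gC ρ m' x y := by
  have h1 : 0 ≤ ρ*(sig ρ-1) := mul_nonneg hρ0 (by linarith [sig_ge hρ1])
  have h2 := mul_le_mul_of_nonneg_left (pow_le_pow_left₀ hm hmm 2) h1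
  have h3 := mul_le_mul_of_nonneg_right hmm (by linarith : 0 ≤ y + 22/25)
  unfold gC
  linarith

theorem gE_mono {ρ m m' x y : ℝ} (hρ1 : ρ ≤ 1) (hmm : m ≤ m') : gE ρ m x y ≤ gE ρ m' x y := by
  have h3 := mul_le_mul_of_nonneg_right hmm
    (by linarith [tau_xg_le hρ1] : 0 ≤ 1 - tau ρ*xg ρ)
  unfold gE
  linarith

theorem facetC {ρ L m w x y z f g : ℝ} (hρ0 : 0 < ρ) (hρ1 : ρ ≤ 1) (hL : 4 ≤ L) (hm : 1/4 ≤ m)
    (hw : |w| ≤ m + 1/200) (hC : 0 ≤ gC ρ (m + 1/200) w x)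
    (hx0 : -(1/200) ≤ x) (hx1 : x ≤ m) (hy : gC ρ m x y = 0) (hy0 : -(1/200) ≤ y)
    (hz0 : -(1/200) ≤ z) (hz1 : z ≤ m) (hz : 0 ≤ gE ρ m y z)
    (hf : |f| ≤ 1/2000) (hg : |g| ≤ 1/2000) :
    0 < m*(L*DD ρ x y z g) - 2*ρ*sig ρ*x*DD ρ w x y f := by
  have hm0 : 0 < m := by linarith
  obtain ⟨h, hh⟩ : ∃ h, h = m⁻¹ := ⟨_, rfl⟩
  have hh0 : 0 < h := by rw [hh]; positivity
  have hmh : m*h = 1 := by rw [hh]; field_simp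
  have hh2 : 0 < h^2 := by positivity
  have hle : ∀ {a b : ℝ}, a ≤ b → a*h ≤ b*h := fun hab => mul_le_mul_of_nonneg_right hab hh0.le
  have hle2 : ∀ {a b : ℝ}, a ≤ b → a*h^2 ≤ b*h^2 := fun hab =>
    mul_le_mul_of_nonneg_right hab hh2.le
  have key := coreC (W := w*h) (X := x*h) (Y := y*h) (Z := z*h) (φ := f*h^2) (ψ := g*h^2)
    hρ0 hρ1 hh0 (by linarith [hle hm]) hL
    (by
      have h1 := hle2 (sq_le_sq' (abs_le.1 hw).1 (abs_le.1 hw).2)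
      have h2 : (1+h/200)^2 = (m+1/200)^2*h^2 := by rw [hh]; field_simp
      rw [h2]; linarith)
    (by
      have h1 := hle2 hC
      have h2 : gC ρ (m+1/200) w x*h^2 = sw1 ρ h (x*h) - ρ*sig ρ*(w*h)^2 := by
        unfold gC sw1; rw [hh]; field_simp
      linarith)
    (by linarith [hle hx0]) (by linarith [hle hx1])
    (by
      have h2 : gC ρ m x y*h^2 = y*h - Yc ρ h (x*h) := by
        unfold gC Yc; rw [hh]; field_simp; ring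
      rw [hy] at h2
      linarith)
    (by linarith [hle hy0]) (by linarith [hle hz0]) (by linarith [hle hz1])
    (by
      have h1 := hle hz
      have h2 : gE ρ m y z*h = 1 - tau ρ*xg ρ + tau ρ*(y*h) + 27/1000*h - z*h := by
        unfold gE; rw [hh]; field_simp
      linarith)
    (by linarith [hle2 (abs_le.1 hf).2]) (by linarith [hle2 (abs_le.1 hg).1])
  have h1 : m*(L*DD ρ x y z g) - 2*ρ*sig ρ*x*DD ρ w x y f = m^3*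
      (L*(ρ*(x*h)^2 - y*h*(z*h) - h*(y*h) + g*h^2)
        - 2*ρ*sig ρ*(x*h)*(ρ*(w*h)^2 - x*h*(y*h) - h*(x*h) + f*h^2)) := by
    unfold DD; rw [hh]; field_simp
  rw [h1]
  positivity

theorem facetE {ρ L m w x y z f g : ℝ} (hρ1 : ρ ≤ 1) (hL : 4 ≤ L) (hm : 1/4 ≤ m)
    (hE : 0 ≤ gE ρ (m + 1/200) w x) (hx0 : -(1/200) ≤ x) (hy : gE ρ m x y = 0) (hy1 : y ≤ m)
    (hz : 0 ≤ gC ρ m y z) (hf : |f| ≤ 1/2000) (hg : |g| ≤ 1/2000) :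
    0 < tau ρ*DD ρ w x y f - L*DD ρ x y z g := by
  have hm0 : 0 < m := by linarith
  obtain ⟨h, hh⟩ : ∃ h, h = m⁻¹ := ⟨_, rfl⟩
  have hh0 : 0 < h := by rw [hh]; positivity
  have hmh : m*h = 1 := by rw [hh]; field_simp
  have hh2 : 0 < h^2 := by positivity
  have hle : ∀ {a b : ℝ}, a ≤ b → a*h ≤ b*h := fun hab => mul_le_mul_of_nonneg_right hab hh0.le
  have hle2 : ∀ {a b : ℝ}, a ≤ b → a*h^2 ≤ b*h^2 := fun hab =>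
    mul_le_mul_of_nonneg_right hab hh2.le
  have key := coreE (W := w*h) (X := x*h) (Y := y*h) (Z := z*h) (φ := f*h^2) (ψ := g*h^2)
    hρ1 hh0 (by linarith [hle hm]) hL
    (by
      have h1 := hle hE
      have h2 : gE ρ (m+1/200) w x*h
          = (1+h/200)*(1 - tau ρ*xg ρ) + tau ρ*(w*h) + 27/1000*h - x*h := by
        unfold gE; rw [hh]; field_simp
      linarith)
    (by linarith [hle hx0])
    (by
      have h2 : gE ρ m x y*h = 1 - tau ρ*xg ρ + tau ρ*(x*h) + 27/1000*h - y*h := by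
        unfold gE; rw [hh]; field_simp
      rw [hy] at h2
      linarith)
    (by linarith [hle hy1])
    (by
      have h1 := hle2 hz
      have h2 : gC ρ m y z*h^2 = z*h - Yc ρ h (y*h) := by
        unfold gC Yc; rw [hh]; field_simp; ring
      linarith)
    (by linarith [hle2 (abs_le.1 hf).1]) (by linarith [hle2 (abs_le.1 hg).2])
  have h1 : tau ρ*DD ρ w x y f - L*DD ρ x y z g = m^2*
      (tau ρ*(ρ*(w*h)^2 - x*h*(y*h) - h*(x*h) + f*h^2)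
        - L*(ρ*(x*h)^2 - y*h*(z*h) - h*(y*h) + g*h^2)) := by
    unfold DD; rw [hh]; field_simp
  rw [h1]
  positivity

theorem facetA {ρ m w y f : ℝ} (hρ0 : 0 < ρ) (hρ1 : ρ ≤ 1) (hm : 1/4 ≤ m)
    (hw : |w| ≤ m + 1/200) (hy : 0 ≤ gC ρ m m y) (hf : |f| ≤ 1/2000) : DD ρ w m y f < 0 := by
  have h1 := mul_le_mul_of_nonneg_left (sq_le_sq' (abs_le.1 hw).1 (abs_le.1 hw).2) hρ0.le
  have h2 := mul_le_mul_of_nonneg_right hρ1 (by linarith : 0 ≤ m/100 + 1/40000)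
  have h3 := (abs_le.1 hf).2
  unfold gC at hy
  unfold DD
  linarith

theorem facetB {ρ w y f : ℝ} (hρ0 : 0 < ρ) (hy : -(1/200) ≤ y) (hf : |f| ≤ 1/2000) :
    0 < DD ρ w (-(1/200)) y f := by
  have h1 := mul_nonneg hρ0.le (sq_nonneg w)
  have h3 := (abs_le.1 hf).1
  unfold DD
  linarith

end

end Pool.Agent.Work.MP_6bf1e5_an.Dy
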