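import Pool.Agent.Work.MP_6bf1e5_an.Dy.Inv
import Pool.Agent.Work.MP_6bf1e5_an.Dy.Core

/-! Galerkin approximations of the rescaled dyadic model with a cut-off vector field. -/

namespace Pool.Agent.Work.MP_6bf1e5_an.Dy

open Set Filter Topology

noncomputable section

theorem exists_cut {V : Type*} [NormedAddCommGroup V] [NormedSpace ℝ V]
    [FiniteDimensional ℝ V] (F : V → V) (hF : ContDiff ℝ 1 F) (φ : ℝ → V)
    (hφ : ContinuousOn φ (Ici 0)) {R : ℝ} (hR : 0 ≤ R) (v0 : V) {T : ℝ} (hT : 0 ≤ T) :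
    ∃ (α : ℝ → V) (c : ℝ → ℝ), α 0 = v0 ∧ ∀ t ∈ Icc 0 T,
      HasDerivWithinAt α (c t • (F (α t) + φ t)) (Ici 0) t ∧ (‖α t‖ ≤ R → c t = 1) := by
  have : CompleteSpace V := FiniteDimensional.complete ℝ V
  let χ : ContDiffBump (0 : V) := ⟨R + 1, R + 2, by linarith, by linarith⟩
  have hχ : ContDiff ℝ 1 χ := χ.contDiff
  have hG : ContDiff ℝ 1 (fun v => χ v • F v) := hχ.smul hF
  have hGc : HasCompactSupport (fun v => χ v • F v) := χ.hasCompactSupport.smul_right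
  obtain ⟨K1, hK1⟩ := hG.lipschitzWith_of_hasCompactSupport hGc (by simp)
  obtain ⟨K2, hK2⟩ := hχ.lipschitzWith_of_hasCompactSupport χ.hasCompactSupport (by simp)
  obtain ⟨L, hL⟩ := hGc.exists_bound_of_continuous hG.continuous
  have hL0 : 0 ≤ L := (norm_nonneg _).trans (hL 0)
  have hφ' : ContinuousOn φ (Icc 0 (T+1)) := hφ.mono Icc_subset_Ici_self
  obtain ⟨C, hC⟩ := isCompact_Icc.exists_bound_of_continuousOn hφ'
  have hC0 : 0 ≤ C := (norm_nonneg _).trans (hC 0 ⟨le_rfl, by linarith⟩)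
  have hP : IsPicardLindelof (fun t v => χ v • F v + χ v • φ t)
      (⟨0, by constructor <;> linarith⟩ : Icc (0 : ℝ) (T+1))
      v0 ⟨(L+C)*(T+1), by positivity⟩ 0 ⟨L+C, by positivity⟩ (K1 + K2 * ⟨C, hC0⟩) := by
    refine ⟨fun t ht => ?_, fun v _ => ?_, fun t ht v _ => ?_, ?_⟩
    · refine (hK1.add (LipschitzWith.of_dist_le_mul fun u v => ?_)).lipschitzOnWith
      rw [dist_eq_norm, ← sub_smul, norm_smul]
      have h1 : ‖χ u - χ v‖ ≤ K2 * dist u v := by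
        rw [← dist_eq_norm]; exact hK2.dist_le_mul u v
      calc ‖χ u - χ v‖ * ‖φ t‖ ≤ (K2 * dist u v) * C :=
            mul_le_mul h1 (hC t ht) (norm_nonneg _) (by positivity)
        _ = K2 * C * dist u v := by ring
    · exact continuousOn_const.add (hφ'.const_smul (χ v))
    · refine (norm_add_le _ _).trans (add_le_add (hL v) ?_)
      rw [norm_smul, Real.norm_of_nonneg χ.nonneg]
      calc χ v * ‖φ t‖ ≤ 1 * C := mul_le_mul χ.le_one (hC t ht) (norm_nonneg _) zero_le_one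
        _ = C := one_mul C
    · have : max (T + 1 - 0) (0 - (0 : ℝ)) = T + 1 := by
        rw [max_eq_left] <;> linarith
      simp only [NNReal.coe_zero, sub_zero] at this ⊢
      rw [this]
      exact le_rfl
  obtain ⟨α, h0, hα⟩ := hP.exists_eq_forall_mem_Icc_hasDerivWithinAt₀
  refine ⟨α, fun t => χ (α t), h0, fun t ht => ⟨?_, fun h => ?_⟩⟩
  · rw [smul_add]
    refine (hα t ⟨ht.1, by linarith [ht.2]⟩).mono_of_mem_nhdsWithin ?_
    rw [← Ici_inter_Iic]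
    exact inter_mem_nhdsWithin _ (Iic_mem_nhds (by linarith [ht.2]))
  · exact χ.one_of_mem_closedBall (by simpa [χ] using h.trans (by linarith))

/-- The rescaled vector field. -/
def FF (ν L ρ : ℝ) (Y g : ℕ → ℝ) (n : ℕ) : ℝ :=
  ν * L^n * DD ρ (Y (n-1)) (Y n) (Y (n+1)) (g n)

def ext0 (N : ℕ) (v : Finset.Icc 1 N → ℝ) (n : ℕ) : ℝ :=
  if h : n ∈ Finset.Icc 1 N then v ⟨n, h⟩ else 0

theorem contDiff_ext0 (N n : ℕ) : ContDiff ℝ 1 (fun v => ext0 N v n) := by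
  unfold ext0
  by_cases h : n ∈ Finset.Icc 1 N
  · simp only [h, dif_pos]
    exact contDiff_apply ℝ ℝ (⟨n, h⟩ : Finset.Icc 1 N)
  · simp only [h, dif_neg, not_false_eq_true]
    exact contDiff_const

theorem exists_gal_cut (ν L ρ : ℝ) (y : ℕ → ℝ) (f : ℝ → ℕ → ℝ)
    (hf : ∀ n, ContinuousOn (fun t => f t n) (Ici 0)) {R : ℝ} (hR : 0 ≤ R) (N : ℕ) :
    ∃ (Y : ℝ → ℕ → ℝ) (c : ℝ → ℝ), (∀ n, 1 ≤ n → n ≤ N → Y 0 n = y n) ∧ (∀ t, Y t 0 = 0) ∧
      (∀ t n, N < n → Y t n = 0) ∧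
      (∀ t ∈ Icc (0:ℝ) N, ∀ n, 1 ≤ n → n ≤ N →
        HasDerivWithinAt (fun s => Y s n) (c t * FF ν L ρ (Y t) (f t) n) (Ici 0) t) ∧
      ∀ t ∈ Icc (0:ℝ) N, (∀ n, |Y t n| ≤ R) → c t = 1 := by
  obtain ⟨α, c, h0, hα⟩ := exists_cut (V := Finset.Icc 1 N → ℝ)
    (fun v i => FF ν L ρ (ext0 N v) 0 i)
    (contDiff_pi.2 fun i => by
      unfold FF DD
      exact contDiff_const.mul ((((contDiff_const.mul ((contDiff_ext0 N _).pow 2)).sub
        ((contDiff_ext0 N _).mul (contDiff_ext0 N _))).sub (contDiff_ext0 N _)).add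
          contDiff_const))
    (fun t i => ν * L^(i:ℕ) * f t i)
    (continuousOn_pi.2 fun i => continuousOn_const.mul (hf i)) hR
    (fun i => y i) (T := N) (Nat.cast_nonneg N)
  refine ⟨fun t => ext0 N (α t), c, fun n h1 h2 => ?_, fun t => by simp [ext0],
    fun t n hn => by simp [ext0, not_le.2 hn], fun t ht n h1 h2 => ?_, fun t ht h => ?_⟩
  · simp [ext0, h0, h1, h2]
  · have hn : n ∈ Finset.Icc 1 N := Finset.mem_Icc.2 ⟨h1, h2⟩
    have := hasDerivWithinAt_pi.1 (hα t ht).1 ⟨n, hn⟩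
    have h3 : (fun s => ext0 N (α s) n) = fun s => α s ⟨n, hn⟩ := by
      funext s; simp [ext0, hn, -Finset.mem_Icc]
    rw [h3]
    refine this.congr_deriv ?_
    simp only [Pi.smul_apply, Pi.add_apply, smul_eq_mul, FF, DD, Pi.zero_apply]
    ring
  · refine (hα t ht).2 ((pi_norm_le_iff_of_nonneg hR).2 fun i => ?_)
    have := h i
    simpa [ext0] using this

/-- The weighted energy of the first `k` shells. -/
def en (q : ℝ) (k : ℕ) (Y : ℕ → ℝ) : ℝ := ∑ n ∈ Finset.Icc 1 k, Y n^2 / q^n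

theorem flux_sum {ν L ρ : ℝ} (hL : 0 < L) (hρ : 0 < ρ) (Y g : ℕ → ℝ) (h0 : Y 0 = 0) (k : ℕ) :
    ∑ n ∈ Finset.Icc 1 k, 2 * Y n * FF ν L ρ Y g n / (L*ρ)^n
      = -2*ν*(Y k^2 * Y (k+1) / ρ^k + ∑ n ∈ Finset.Icc 1 k, (Y n^2 - g n * Y n) / ρ^n) := by
  induction k with
  | zero => simp [h0]
  | succ k ih =>
    rw [Finset.sum_Icc_succ_top (by omega), Finset.sum_Icc_succ_top (by omega), ih]
    simp only [FF, DD, Nat.add_sub_cancel, mul_pow, pow_succ]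
    field_simp
    ring

theorem sq_le_en {q : ℝ} (hq : 0 < q) {k n : ℕ} (Y : ℕ → ℝ) (h1 : 1 ≤ n) (h2 : n ≤ k) :
    Y n^2 ≤ en q k Y * q^n := by
  rw [← div_le_iff₀ (by positivity)]
  exact Finset.single_le_sum (f := fun n => Y n^2 / q^n) (fun n _ => by positivity)
    (Finset.mem_Icc.2 ⟨h1, h2⟩)

theorem flux_neg {ν L ρ Φ : ℝ} (hν : 0 < ν) (hL : 1 ≤ L) (hρ : 0 < ρ) (Y g : ℕ → ℝ) (h0 : Y 0 = 0)
    {k : ℕ} (hk : 1 ≤ k) (hY : -(1/200) ≤ Y (k+1)) (hg : ∀ n, |g n| ≤ Φ)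
    (hE : 2 * ∑ n ∈ Finset.Icc 1 k, Φ^2 / ρ^n < en (L*ρ) k Y) :
    ∑ n ∈ Finset.Icc 1 k, 2 * Y n * FF ν L ρ Y g n / (L*ρ)^n < 0 := by
  rw [flux_sum (by linarith) hρ Y g h0]
  have h1 : en (L*ρ) k Y ≤ ∑ n ∈ Finset.Icc 1 k, Y n^2 / ρ^n := by
    refine Finset.sum_le_sum fun n _ => ?_
    refine div_le_div_of_nonneg_left (sq_nonneg _) (by positivity) ?_
    exact pow_le_pow_left₀ hρ.le (by nlinarith) n
  have h2 : Y k^2 / ρ^k ≤ ∑ n ∈ Finset.Icc 1 k, Y n^2 / ρ^n :=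
    Finset.single_le_sum (f := fun n => Y n^2 / ρ^n) (fun n _ => by positivity)
      (Finset.mem_Icc.2 ⟨hk, le_rfl⟩)
  have h3 : ∑ n ∈ Finset.Icc 1 k, (Y n^2 / ρ^n / 2 - Φ^2 / ρ^n / 2)
      ≤ ∑ n ∈ Finset.Icc 1 k, (Y n^2 - g n * Y n) / ρ^n := by
    refine Finset.sum_le_sum fun n _ => ?_
    rw [div_right_comm, div_right_comm (Φ^2), ← sub_div]
    refine div_le_div_of_nonneg_right ?_ (by positivity)
    have := sq_le_sq' (abs_le.1 (hg n)).1 (abs_le.1 (hg n)).2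
    nlinarith [sq_nonneg (Y n - g n)]
  rw [Finset.sum_sub_distrib, ← Finset.sum_div, ← Finset.sum_div] at h3
  have h4 := mul_le_mul_of_nonneg_left hY (by positivity : 0 ≤ Y k^2 / ρ^k)
  have h5 : Y k^2 * Y (k+1) / ρ^k = Y k^2 / ρ^k * Y (k+1) := by ring
  have h6 : 0 ≤ ∑ n ∈ Finset.Icc 1 k, Φ^2 / ρ^n := by positivity
  have h7 : 0 < Y k^2 * Y (k+1) / ρ^k + ∑ n ∈ Finset.Icc 1 k, (Y n^2 - g n * Y n) / ρ^n := by
    linarith
  have := mul_pos hν h7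
  linarith

end

end Pool.Agent.Work.MP_6bf1e5_an.Dy
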