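import Pool.Agent.Work.MP_6bf1e5_an.Dy.Region

/-! Passage to the limit in the Galerkin approximations. -/

namespace Pool.Agent.Work.MP_6bf1e5_an.Dy

open Set Filter Topology

noncomputable section

/-- Global solutions of the rescaled system. -/
structure Sol (ν L ρ : ℝ) (f : ℝ → ℕ → ℝ) (Y : ℝ → ℕ → ℝ) : Prop where
  zero : ∀ t, 0 ≤ t → Y t 0 = 0
  ode : ∀ t, 0 ≤ t → ∀ n, 1 ≤ n →
    HasDerivWithinAt (fun s => Y s n) (FF ν L ρ (Y t) (f t) n) (Ici 0) t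

theorem abs_mul_le {a b A B : ℝ} (ha : |a| ≤ A) (hb : |b| ≤ B) : |a*b| ≤ A*B := by
  rw [abs_mul]
  exact mul_le_mul ha hb (abs_nonneg _) ((abs_nonneg _).trans ha)

theorem DD_bound {ρ w x y f B Φ : ℝ} (hρ0 : 0 ≤ ρ) (hρ1 : ρ ≤ 1) (hw : |w| ≤ B) (hx : |x| ≤ B)
    (hy : |y| ≤ B) (hf : |f| ≤ Φ) : |DD ρ w x y f| ≤ 2*B^2 + B + Φ := by
  have h1 := abs_le.1 (abs_mul_le (abs_le.2 ⟨by linarith, hρ1⟩ : |ρ| ≤ 1) (abs_mul_le hw hw))
  have h2 := abs_le.1 (abs_mul_le hx hy)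
  have h3 := abs_le.1 hx
  have h4 := abs_le.1 hf
  unfold DD
  rw [abs_le]
  constructor <;> linarith [h1.1, h1.2, h2.1, h2.2]

theorem DD_diff {ρ w x y f w' x' y' f' B d : ℝ} (hρ0 : 0 ≤ ρ) (hρ1 : ρ ≤ 1) (hw : |w| ≤ B)
    (hw' : |w'| ≤ B) (hx : |x| ≤ B) (hy' : |y'| ≤ B) (dw : |w' - w| ≤ d) (dx : |x' - x| ≤ d)
    (dy : |y' - y| ≤ d) : |DD ρ w' x' y' f' - DD ρ w x y f| ≤ (4*B+1)*d + |f' - f| := by
  have hρ : |ρ| ≤ 1 := abs_le.2 ⟨by linarith, hρ1⟩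
  have h1 := abs_le.1 (abs_mul_le hρ (abs_mul_le hw dw))
  have h2 := abs_le.1 (abs_mul_le hρ (abs_mul_le hw' dw))
  have h3 := abs_le.1 (abs_mul_le hx dy)
  have h4 := abs_le.1 (abs_mul_le hy' dx)
  have h5 := abs_le.1 dx
  have h6 := le_abs_self (f' - f)
  have h7 := neg_abs_le (f' - f)
  unfold DD
  rw [abs_le]
  constructor <;> linarith [h1.1, h1.2, h2.1, h2.2, h3.1, h3.2, h4.1, h4.2]

theorem exists_sol {ν L ρ Φ : ℝ} (hν : 0 < ν) (hL : 1 < L) (hρ0 : 0 < ρ) (hρ1 : ρ ≤ 1)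
    (y : ℕ → ℝ) (hy0 : y 0 = 0) (f : ℝ → ℕ → ℝ)
    (hfc : ∀ n, ContinuousOn (fun t => f t n) (Ici 0)) (hΦ : ∀ t, 0 ≤ t → ∀ n, |f t n| ≤ Φ)
    (hG : ∃ (B : ℝ) (n0 : ℕ), ∀ N, n0 ≤ N → ∃ Y, Gal ν L ρ y f N Y ∧
      ∀ t ∈ Icc (0:ℝ) N, ∀ n, |Y t n| ≤ B ∧ (n0 ≤ n → |Y t n| ≤ 1/4)) :
    ∃ (Y : ℝ → ℕ → ℝ) (B : ℝ) (n0 : ℕ), Sol ν L ρ f Y ∧ Y 0 = y ∧
      ∀ t, 0 ≤ t → ∀ n, |Y t n| ≤ B ∧ (n0 ≤ n → |Y t n| ≤ 1/4) := by
  obtain ⟨B, n0, hG⟩ := hG
  choose! G hG hb using hG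
  have hU : ∀ {p : ℕ → Prop}, (∀ᶠ N in atTop, p N) → ∀ᶠ N in (hyperfilter ℕ : Filter ℕ), p N :=
    fun h => Nat.hyperfilter_le_atTop h
  have hev : ∀ t : ℝ, 0 ≤ t → ∀ᶠ N : ℕ in atTop, n0 ≤ N ∧ t ∈ Icc (0:ℝ) N := fun t ht =>
    (eventually_ge_atTop n0).and
      ((tendsto_natCast_atTop_atTop.eventually (eventually_ge_atTop t)).mono fun N h => ⟨ht, h⟩)
  have hlim : ∀ t : ℝ, 0 ≤ t → ∀ n, ∃ a,
      Tendsto (fun N => G N t n) (hyperfilter ℕ : Filter ℕ) (𝓝 a) := by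
    intro t ht n
    obtain ⟨a, -, ha⟩ := (isCompact_Icc (a := -B) (b := B)).ultrafilter_le_nhds
      ((hyperfilter ℕ).map fun N => G N t n) (by
        rw [Ultrafilter.coe_map, le_principal_iff, mem_map]
        exact hU ((hev t ht).mono fun N h => abs_le.1 (hb N h.1 t h.2 n).1))
    exact ⟨a, ha⟩
  choose! Y hY using hlim
  have hz : ∀ t, 0 ≤ t → Y t 0 = 0 := fun t ht =>
    tendsto_nhds_unique (hY t ht 0) (tendsto_const_nhds.congr'
      (hU ((eventually_ge_atTop n0).mono fun N h => ((hG N h).zero t).symm)))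
  have hB0 : 0 ≤ B := (abs_nonneg _).trans (hb n0 le_rfl 0 ⟨le_rfl, Nat.cast_nonneg _⟩ 0).1
  have hΦ0 : 0 ≤ Φ := (abs_nonneg _).trans (hΦ 0 le_rfl 0)
  refine ⟨Y, B, n0, ⟨hz, fun t ht n hn => ?_⟩, funext fun n => ?_, fun t ht n => ⟨?_, fun hn => ?_⟩⟩
  · -- uniform Lipschitz bound
    obtain ⟨K, hK0, hK⟩ : ∃ K, 0 ≤ K ∧ ∀ N, n0 ≤ N → n + 1 ≤ N → ∀ j ≤ n + 1,
        ∀ r ∈ Icc (0:ℝ) N, ∀ s ∈ Icc (0:ℝ) N, |G N r j - G N s j| ≤ K * |r - s| := by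
      refine ⟨ν * L^(n+1) * (2*B^2 + B + Φ), by positivity, fun N h1 h2 j hj r hr s hs => ?_⟩
      rcases Nat.eq_zero_or_pos j with rfl | hj0
      · rw [(hG N h1).zero, (hG N h1).zero, sub_zero, abs_zero]
        positivity
      refine (convex_Icc (0:ℝ) N).norm_image_sub_le_of_norm_hasDerivWithin_le
        (f := fun s => G N s j) (f' := fun s => FF ν L ρ (G N s) (f s) j)
        (fun u hu => ((hG N h1).ode u hu j hj0 (by omega)).mono Icc_subset_Ici_self)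
        (fun u hu => ?_) hs hr
      refine abs_mul_le ?_ (DD_bound hρ0.le hρ1 (hb N h1 u hu _).1 (hb N h1 u hu _).1
        (hb N h1 u hu _).1 (hΦ u hu.1 _))
      rw [abs_of_pos (by positivity)]
      exact mul_le_mul_of_nonneg_left (pow_le_pow_right₀ (by linarith) hj) hν.le
    have hR : 0 < ν * L^n := by positivity
    rw [hasDerivWithinAt_iff_isLittleO, Asymptotics.isLittleO_iff]
    intro ε hε
    obtain ⟨δ, hδ0, hδ⟩ : ∃ δ > 0, ∀ r, 0 ≤ r → |r - t| < δ →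
        ν * L^n * ((4*B+1)*(K*|r - t|) + |f r n - f t n|) ≤ ε := by
      have hc : ContinuousWithinAt
          (fun r => ν * L^n * ((4*B+1)*(K*|r - t|) + |f r n - f t n|)) (Ici 0) t := by
        have := hfc n t ht
        fun_prop
      have h2 := hc.eventually (gt_mem_nhds (a := ε) (by simpa using hε))
      obtain ⟨δ, hδ0, hδ⟩ := Metric.mem_nhdsWithin_iff.1 h2
      exact ⟨δ, hδ0, fun r hr h => le_of_lt (hδ ⟨by simpa [Real.dist_eq] using h, hr⟩)⟩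
    have hball : ∀ᶠ s in 𝓝[Ici 0] t, s ∈ Metric.ball t δ :=
      mem_nhdsWithin_of_mem_nhds (Metric.ball_mem_nhds t hδ0)
    filter_upwards [hball, self_mem_nhdsWithin] with s hs hs0
    have hT : Tendsto (fun N => ‖G N s n - G N t n - (s - t) • FF ν L ρ (G N t) (f t) n‖)
        (hyperfilter ℕ : Filter ℕ) (𝓝 ‖Y s n - Y t n - (s - t) • FF ν L ρ (Y t) (f t) n‖) := by
      unfold FF DD
      exact (((hY s hs0 n).sub (hY t ht n)).sub (Tendsto.const_smul (Tendsto.const_mul _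
        ((((((hY t ht _).pow 2).const_mul ρ).sub ((hY t ht n).mul (hY t ht _))).sub
          (hY t ht n)).add_const _)) _)).norm
    refine le_of_tendsto hT (hU ?_)
    filter_upwards [hev t ht, hev s hs0, eventually_ge_atTop (n+1)] with N h1 h2 h3
    have := ((convex_Icc (0:ℝ) N).inter (convex_ball t δ)).norm_image_sub_le_of_norm_hasDerivWithin_le
      (f := fun r => G N r n - r * FF ν L ρ (G N t) (f t) n)
      (f' := fun r => FF ν L ρ (G N r) (f r) n - FF ν L ρ (G N t) (f t) n) (C := ε)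
      (fun u hu => (((hG N h1.1).ode u hu.1 n hn (by omega)).mono
        (inter_subset_left.trans Icc_subset_Ici_self)).sub
          (hasDerivAt_mul_const _).hasDerivWithinAt)
      (fun u hu => by
        refine le_trans ?_ (hδ u hu.1.1 (by simpa [Real.dist_eq] using hu.2))
        unfold FF
        rw [← mul_sub]
        exact abs_mul_le (abs_of_pos hR).le (DD_diff hρ0.le hρ1 (hb N h1.1 t h1.2 _).1
          (hb N h1.1 u hu.1 _).1 (hb N h1.1 t h1.2 _).1 (hb N h1.1 u hu.1 _).1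
          (hK N h1.1 h3 _ (by omega) u hu.1 t h1.2) (hK N h1.1 h3 _ (by omega) u hu.1 t h1.2)
          (hK N h1.1 h3 _ (by omega) u hu.1 t h1.2)))
      ⟨h1.2, Metric.mem_ball_self hδ0⟩ ⟨h2.2, hs⟩
    have e : G N s n - G N t n - (s - t) • FF ν L ρ (G N t) (f t) n
        = G N s n - s * FF ν L ρ (G N t) (f t) n - (G N t n - t * FF ν L ρ (G N t) (f t) n) := by
      rw [smul_eq_mul]
      ring
    rw [e]
    exact this
  · rcases Nat.eq_zero_or_pos n with rfl | hn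
    · rw [hz 0 le_rfl, hy0]
    · exact tendsto_nhds_unique (hY 0 le_rfl n) (tendsto_const_nhds.congr'
        (hU (((eventually_ge_atTop n0).and (eventually_ge_atTop n)).mono
          fun N h => ((hG N h.1).init n hn h.2).symm)))
  · exact le_of_tendsto (hY t ht n).abs (hU ((hev t ht).mono fun N h => (hb N h.1 t h.2 n).1))
  · exact le_of_tendsto (hY t ht n).abs (hU ((hev t ht).mono fun N h => (hb N h.1 t h.2 n).2 hn))

end

end Pool.Agent.Work.MP_6bf1e5_an.Dy
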