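import Pool.Agent.Work.MP_6bf1e5_an.Dy.Galerkin

/-! Invariance of the region for the Galerkin system and the resulting uniform bounds. -/

namespace Pool.Agent.Work.MP_6bf1e5_an.Dy

open Set Filter Topology

noncomputable section

theorem gC_static {ρ m M w x : ℝ} (hρ0 : 0 < ρ) (hρ1 : ρ ≤ 1) (hm : 0 ≤ m) (hM : 40*M ≤ ρ*m)
    (hw : |w| ≤ M) (hx : |x| ≤ M) : 0 ≤ gC ρ m w x := by
  have hM0 : 0 ≤ M := (abs_nonneg _).trans hw
  have h1 : 40*M ≤ m := hM.trans (by nlinarith)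
  have h2 := sig_ge hρ1
  have h3 := sig_le hρ0.le
  have h4 : w^2 ≤ M^2 := sq_le_sq' (abs_le.1 hw).1 (abs_le.1 hw).2
  have h5 : sig ρ*w^2 ≤ 73/50*M^2 := mul_le_mul h3 h4 (sq_nonneg _) (by norm_num)
  have h6 := mul_le_mul_of_nonneg_left h5 hρ0.le
  have h7 := mul_le_mul_of_nonneg_left (abs_le.1 hx).1 hm
  have h8 := mul_le_mul_of_nonneg_right hM hm
  have h9 := mul_le_mul_of_nonneg_left (pow_le_pow_left₀ (by positivity) h1 2) hρ0.le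
  have h10 := mul_le_mul_of_nonneg_left h2 (by positivity : 0 ≤ ρ*m^2)
  have h11 : 0 ≤ ρ*M^2 := by positivity
  have h12 : 0 ≤ M*m := by positivity
  unfold gC
  linarith

theorem gE_static {ρ m M w x : ℝ} (hρ1 : ρ ≤ 1) (hM : 40*M ≤ m)
    (hw : -M ≤ w) (hx : x ≤ M) (hM0 : 0 ≤ M) : 0 ≤ gE ρ m w x := by
  have h1 := mul_le_mul_of_nonneg_left (tau_xg_le hρ1) (by linarith : 0 ≤ m)
  have h2 := mul_le_mul_of_nonneg_left hw (tau_nonneg ρ)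
  have h3 := mul_le_mul_of_nonneg_right (tau_le ρ) hM0
  unfold gE
  linarith

theorem gC_small {ρ m x y : ℝ} (hρ0 : 0 < ρ) (hρ1 : ρ ≤ 1) (hm : 1/4 ≤ m) (hx : |x| ≤ 1/4)
    (hy : -(1/200) ≤ y) : 0 ≤ gC ρ m x y := by
  have h2 := sig_ge hρ1
  have h3 := sig_le hρ0.le
  have h4 : x^2 ≤ (1/4)^2 := sq_le_sq' (abs_le.1 hx).1 (abs_le.1 hx).2
  have h5 : ρ*sig ρ ≤ 73/50 := by nlinarith
  have h6 := mul_le_mul h5 h4 (sq_nonneg _) (by norm_num)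
  have h7 := mul_le_mul hm (by linarith : 7/8 ≤ y + 22/25) (by norm_num) (by linarith)
  have h8 : 0 ≤ ρ*(sig ρ-1)*m^2 := mul_nonneg (mul_nonneg hρ0.le (by linarith)) (sq_nonneg _)
  unfold gC
  linarith

/-- The constraints defining the region, at one instant. -/
structure Reg (ρ : ℝ) (m : ℕ → ℝ) (k N : ℕ) (Y : ℕ → ℝ) : Prop where
  up : ∀ n, k ≤ n → Y n ≤ m n
  low : ∀ n, k ≤ n → -(1/200) ≤ Y n
  cc : ∀ n, k ≤ n → n ≤ N → 0 ≤ gC ρ (m n) (Y n) (Y (n+1))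
  ee : ∀ n, k ≤ n → n ≤ N → 0 ≤ gE ρ (m n) (Y n) (Y (n+1))
  pw : ∀ n, k ≤ n → |Y (n-1)| ≤ m n + 1/200
  pc : ∀ n, k ≤ n → n ≤ N → 0 ≤ gC ρ (m n + 1/200) (Y (n-1)) (Y n)
  pe : ∀ n, k ≤ n → n ≤ N → 0 ≤ gE ρ (m n + 1/200) (Y (n-1)) (Y n)

theorem reg_of {ρ M : ℝ} {m : ℕ → ℝ} {k N : ℕ} {Y : ℕ → ℝ} (hρ0 : 0 < ρ) (hρ1 : ρ ≤ 1)
    (hm : ∀ n, 1/4 ≤ m n) (hstep : ∀ n, m n ≤ m (n+1) + 1/200) (hN : m N = 1/4)
    (hkN : k ≤ N) (hM : 40*M ≤ ρ*m k) (hlow : ∀ n ≤ k, |Y n| ≤ M) (htop : ∀ n, N < n → Y n = 0)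
    (h1 : ∀ n ∈ Finset.Icc k N, 0 ≤ m n - Y n) (h2 : ∀ n ∈ Finset.Icc k N, 0 ≤ Y n + 1/200)
    (h3 : ∀ n ∈ Finset.Ico k N, 0 ≤ gC ρ (m n) (Y n) (Y (n+1)))
    (h4 : ∀ n ∈ Finset.Ico k N, 0 ≤ gE ρ (m n) (Y n) (Y (n+1))) : Reg ρ m k N Y := by
  have hM0 : 0 ≤ M := (abs_nonneg _).trans (hlow 0 (Nat.zero_le k))
  have hup : ∀ n, k ≤ n → Y n ≤ m n := fun n hn => by
    rcases lt_or_ge N n with h | h
    · linarith [htop n h, hm n]
    · linarith [h1 n (Finset.mem_Icc.2 ⟨hn, h⟩)]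
  have hlo : ∀ n, k ≤ n → -(1/200) ≤ Y n := fun n hn => by
    rcases lt_or_ge N n with h | h
    · linarith [htop n h]
    · linarith [h2 n (Finset.mem_Icc.2 ⟨hn, h⟩)]
  have hcc : ∀ n, k ≤ n → n ≤ N → 0 ≤ gC ρ (m n) (Y n) (Y (n+1)) := fun n hn hn' => by
    rcases eq_or_lt_of_le hn' with rfl | h
    · refine gC_small hρ0 hρ1 (hm n) (abs_le.2 ⟨by linarith [hlo n hn], hN ▸ hup n hn⟩)
        (hlo _ (by omega))
    · exact h3 n (Finset.mem_Ico.2 ⟨hn, h⟩)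
  have hee : ∀ n, k ≤ n → n ≤ N → 0 ≤ gE ρ (m n) (Y n) (Y (n+1)) := fun n hn hn' => by
    rcases eq_or_lt_of_le hn' with rfl | h
    · exact gE_static (M := 1/200) hρ1 (by linarith [hm n]) (hlo n hn)
        (by rw [htop _ (Nat.lt_succ_self n)]; norm_num) (by norm_num)
    · exact h4 n (Finset.mem_Ico.2 ⟨hn, h⟩)
  have hM1 : 40*M ≤ m k := hM.trans (by nlinarith [hm k])
  refine ⟨hup, hlo, hcc, hee, fun n hn => ?_, fun n hn hn' => ?_, fun n hn hn' => ?_⟩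
  · rcases eq_or_lt_of_le hn with rfl | h
    · linarith [hlow (k-1) (by omega)]
    · obtain ⟨j, rfl⟩ : ∃ j, n = j+1 := ⟨n-1, by omega⟩
      rw [Nat.add_sub_cancel]
      exact abs_le.2 ⟨by linarith [hlo j (by omega), hm (j+1)],
        by linarith [hup j (by omega), hstep j]⟩
  · rcases eq_or_lt_of_le hn with rfl | h
    · exact gC_static hρ0 hρ1 (by linarith [hm k]) (by nlinarith) (hlow _ (by omega))
        (hlow _ le_rfl)
    · obtain ⟨j, rfl⟩ : ∃ j, n = j+1 := ⟨n-1, by omega⟩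
      rw [Nat.add_sub_cancel]
      exact (hcc j (by omega) (by omega)).trans
        (gC_mono hρ0.le hρ1 (by linarith [hm j]) (hstep j) (hlo _ hn))
  · rcases eq_or_lt_of_le hn with rfl | h
    · exact gE_static hρ1 (by linarith) (abs_le.1 (hlow _ (by omega))).1
        (abs_le.1 (hlow _ le_rfl)).2 hM0
    · obtain ⟨j, rfl⟩ : ∃ j, n = j+1 := ⟨n-1, by omega⟩
      rw [Nat.add_sub_cancel]
      exact (hee j (by omega) (by omega)).trans (gE_mono hρ1 (hstep j))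

theorem Reg.inward {ν L ρ : ℝ} {m : ℕ → ℝ} {k N : ℕ} {Y g : ℕ → ℝ} (h : Reg ρ m k N Y)
    (hν : 0 < ν) (hL : 4 ≤ L) (hρ0 : 0 < ρ) (hρ1 : ρ ≤ 1)
    (hm : ∀ n, 1/4 ≤ m n) (hanti : ∀ n, m (n+1) ≤ m n) (hg : ∀ n, k ≤ n → |g n| ≤ 1/2000) :
    (∀ n ∈ Finset.Icc k N, m n - Y n = 0 → 0 < -FF ν L ρ Y g n) ∧
    (∀ n ∈ Finset.Icc k N, Y n + 1/200 = 0 → 0 < FF ν L ρ Y g n) ∧
    (∀ n ∈ Finset.Ico k N, gC ρ (m n) (Y n) (Y (n+1)) = 0 →
      0 < m n * FF ν L ρ Y g (n+1) - 2*ρ*sig ρ*Y n*FF ν L ρ Y g n) ∧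
    (∀ n ∈ Finset.Ico k N, gE ρ (m n) (Y n) (Y (n+1)) = 0 →
      0 < tau ρ*FF ν L ρ Y g n - FF ν L ρ Y g (n+1)) := by
  have hR : ∀ n, 0 < ν * L^n := fun n => by positivity
  refine ⟨fun n hn h0 => ?_, fun n hn h0 => ?_, fun n hn h0 => ?_, fun n hn h0 => ?_⟩
  · obtain ⟨h1, h2⟩ := Finset.mem_Icc.1 hn
    have e : Y n = m n := by linarith
    have := facetA hρ0 hρ1 (hm n) (h.pw n h1) (e ▸ h.cc n h1 h2) (hg n h1)
    unfold FF
    rw [e]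
    exact neg_pos.2 (mul_neg_of_pos_of_neg (hR n) this)
  · obtain ⟨h1, h2⟩ := Finset.mem_Icc.1 hn
    have e : Y n = -(1/200) := by linarith
    have := facetB (w := Y (n-1)) hρ0 (h.low (n+1) (by omega)) (hg n h1)
    unfold FF
    rw [e]
    exact mul_pos (hR n) this
  · obtain ⟨h1, h2⟩ := Finset.mem_Ico.1 hn
    have := facetC hρ0 hρ1 hL (hm n) (h.pw n h1) (h.pc n h1 h2.le) (h.low n h1) (h.up n h1) h0
      (h.low (n+1) (by omega)) (h.low (n+2) (by omega))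
      ((h.up (n+2) (by omega)).trans ((hanti (n+1)).trans (hanti n)))
      ((h.ee (n+1) (by omega) h2).trans (gE_mono hρ1 (hanti n))) (hg n h1) (hg (n+1) (by omega))
    have h3 := mul_pos (hR n) this
    unfold FF
    rw [Nat.add_sub_cancel, pow_succ]
    linarith
  · obtain ⟨h1, h2⟩ := Finset.mem_Ico.1 hn
    have := facetE hρ1 hL (hm n) (h.pe n h1 h2.le) (h.low n h1) h0
      ((h.up (n+1) (by omega)).trans (hanti n))
      ((h.cc (n+1) (by omega) h2).trans (gC_mono hρ0.le hρ1 (by linarith [hm (n+1)]) (hanti n)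
        (h.low (n+2) (by omega)))) (hg n h1) (hg (n+1) (by omega))
    have h3 := mul_pos (hR n) this
    unfold FF
    rw [Nat.add_sub_cancel, pow_succ]
    linarith

/-- Galerkin approximation with `N` shells on the time interval `[0, N]`. -/
structure Gal (ν L ρ : ℝ) (y : ℕ → ℝ) (f : ℝ → ℕ → ℝ) (N : ℕ) (Y : ℝ → ℕ → ℝ) : Prop where
  init : ∀ n, 1 ≤ n → n ≤ N → Y 0 n = y n
  zero : ∀ t, Y t 0 = 0
  ode : ∀ t ∈ Icc (0:ℝ) N, ∀ n, 1 ≤ n → n ≤ N →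
    HasDerivWithinAt (fun s => Y s n) (FF ν L ρ (Y t) (f t) n) (Ici 0) t

theorem gal_bound {ν L ρ Φ : ℝ} (hν : 0 < ν) (hL : 4 ≤ L) (hρ0 : 0 < ρ) (hρ1 : ρ ≤ 1)
    (y : ℕ → ℝ) (f : ℝ → ℕ → ℝ) (hfc : ∀ n, ContinuousOn (fun t => f t n) (Ici 0))
    {k : ℕ} (hk : 1 ≤ k) (hy : ∀ n, k ≤ n → |y n| ≤ 1/200)
    (hf : ∀ t, 0 ≤ t → ∀ n, k ≤ n → |f t n| ≤ 1/2000) (hΦ : ∀ t, 0 ≤ t → ∀ n, |f t n| ≤ Φ) :
    ∃ (B : ℝ) (n0 : ℕ), ∀ N, n0 ≤ N → ∃ Y, Gal ν L ρ y f N Y ∧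
      ∀ t ∈ Icc (0:ℝ) N, ∀ n, |Y t n| ≤ B ∧ (n0 ≤ n → |Y t n| ≤ 1/4) := by
  have hq : 0 < L*ρ := by positivity
  obtain ⟨E, hE1, hE2⟩ : ∃ E, en (L*ρ) k y ≤ E ∧ 2 * ∑ n ∈ Finset.Icc 1 k, Φ^2 / ρ^n < E :=
    ⟨max _ (_ + 1), le_max_left _ _, lt_of_lt_of_le (lt_add_one _) (le_max_right _ _)⟩
  have hE0 : 0 ≤ E := le_trans (by positivity) hE2.le
  obtain ⟨M, hM0, hM⟩ : ∃ M, 0 ≤ M ∧ ∀ Y : ℕ → ℝ, Y 0 = 0 → 0 ≤ E - en (L*ρ) k Y →
      ∀ n ≤ k, |Y n| ≤ M := by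
    refine ⟨E * (max 1 (L*ρ))^k + 1, by positivity, fun Y h0 h n hn => ?_⟩
    rcases Nat.eq_zero_or_pos n with rfl | h1
    · rw [h0, abs_zero]; positivity
    have h2 := sq_le_en hq Y h1 hn
    have h3 : (L*ρ)^n ≤ (max 1 (L*ρ))^k :=
      (pow_le_pow_left₀ hq.le (le_max_right _ _) n).trans
        (pow_le_pow_right₀ (le_max_left _ _) hn)
    have h4 : en (L*ρ) k Y * (L*ρ)^n ≤ E * (max 1 (L*ρ))^k :=
      mul_le_mul (by linarith) h3 (by positivity) hE0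
    nlinarith [sq_nonneg (|Y n| - 1), sq_abs (Y n), abs_nonneg (Y n)]
  obtain ⟨J, hJ⟩ := exists_nat_ge (8000*M/ρ)
  let m : ℕ → ℝ := fun n => 1/4 + ((k + 1 + J - n : ℕ) : ℝ)/200
  have hm : ∀ n, 1/4 ≤ m n := fun n => le_add_of_nonneg_right (by positivity)
  have hanti : ∀ n, m (n+1) ≤ m n := fun n => by
    have : ((k + 1 + J - (n+1) : ℕ) : ℝ) ≤ (k + 1 + J - n : ℕ) := by
      exact_mod_cast (by omega : k + 1 + J - (n+1) ≤ k + 1 + J - n)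
    simp only [m]; linarith
  have hstep : ∀ n, m n ≤ m (n+1) + 1/200 := fun n => by
    have : ((k + 1 + J - n : ℕ) : ℝ) ≤ (k + 1 + J - (n+1) : ℕ) + 1 := by
      exact_mod_cast (by omega : k + 1 + J - n ≤ k + 1 + J - (n+1) + 1)
    simp only [m]; linarith
  have hm0 : ∀ n, k + 1 + J ≤ n → m n = 1/4 := fun n hn => by
    simp [m, Nat.sub_eq_zero_of_le hn]
  have hmB : ∀ n, m n ≤ m 0 := fun n => (antitone_nat_of_succ_le hanti) (Nat.zero_le n)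
  have hMk : 40*M ≤ ρ*m k := by
    have h1 : m k = 1/4 + ((J:ℝ) + 1)/200 := by
      simp only [m, show k + 1 + J - k = J + 1 by omega]; push_cast; ring
    rw [div_le_iff₀ hρ0] at hJ
    rw [h1]; nlinarith
  refine ⟨M + m 0, k + 1 + J, fun N hN => ?_⟩
  obtain ⟨Y, c, hi, hz, htop, hode, hc⟩ := exists_gal_cut ν L ρ y f hfc
    (R := M + m 0) (by linarith [hm 0]) N
  have hbd : ∀ t, (∀ n ∈ Finset.Icc k N, 0 ≤ m n - Y t n) →
      (∀ n ∈ Finset.Icc k N, 0 ≤ Y t n + 1/200) → 0 ≤ E - en (L*ρ) k (Y t) →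
      ∀ n, |Y t n| ≤ M + m 0 ∧ (k + 1 + J ≤ n → |Y t n| ≤ 1/4) := by
    intro t h1 h2 h5 n
    rcases le_or_gt n k with h | h
    · exact ⟨by linarith [hM (Y t) (hz t) h5 n h, hm 0], fun h' => by omega⟩
    rcases lt_or_ge N n with h' | h'
    · rw [htop t n h', abs_zero]
      exact ⟨by linarith [hm 0], fun _ => by norm_num⟩
    have h3 := h1 n (Finset.mem_Icc.2 ⟨h.le, h'⟩)
    have h4 := h2 n (Finset.mem_Icc.2 ⟨h.le, h'⟩)
    exact ⟨abs_le.2 ⟨by linarith [hm 0], by linarith [hmB n]⟩,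
      fun h6 => abs_le.2 ⟨by linarith, by linarith [hm0 n h6]⟩⟩
  have hinit : ∀ n, k ≤ n → n ≤ N → |Y 0 n| ≤ 1/200 := fun n h1 h2 => by
    rw [hi n (by omega) h2]; exact hy n h1
  have key := inv_five (Finset.Icc k N) (Finset.Ico k N)
    (fun n t => m n - Y t n) (fun n t => -(c t * FF ν L ρ (Y t) (f t) n))
    (fun n t => Y t n + 1/200) (fun n t => c t * FF ν L ρ (Y t) (f t) n)
    (fun n t => gC ρ (m n) (Y t n) (Y t (n+1)))
    (fun n t => m n * (c t * FF ν L ρ (Y t) (f t) (n+1))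
      - 2*ρ*sig ρ*Y t n*(c t * FF ν L ρ (Y t) (f t) n))
    (fun n t => gE ρ (m n) (Y t n) (Y t (n+1)))
    (fun n t => tau ρ*(c t * FF ν L ρ (Y t) (f t) n) - c t * FF ν L ρ (Y t) (f t) (n+1))
    (fun t => E - en (L*ρ) k (Y t))
    (fun t => -∑ n ∈ Finset.Icc 1 k, 2 * Y t n * (c t * FF ν L ρ (Y t) (f t) n) / (L*ρ)^n)
    (a := 0) (b := N)
    (fun n hn t ht => by
      obtain ⟨h1, h2⟩ := Finset.mem_Icc.1 hn
      exact (hode t ht n (by omega) h2).const_sub _)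
    (fun n hn t ht => by
      obtain ⟨h1, h2⟩ := Finset.mem_Icc.1 hn
      exact (hode t ht n (by omega) h2).add_const _)
    (fun n hn t ht => by
      obtain ⟨h1, h2⟩ := Finset.mem_Ico.1 hn
      have d1 := hode t ht n (by omega) h2.le
      have d2 := hode t ht (n+1) (by omega) h2
      unfold gC
      refine (((((d2.const_mul (m n)).add_const (22/25*m n)).add_const
        (ρ*(sig ρ-1)*m n^2)).sub ((d1.pow 2).const_mul (ρ*sig ρ)))).congr_deriv ?_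
      simp
      ring)
    (fun n hn t ht => by
      obtain ⟨h1, h2⟩ := Finset.mem_Ico.1 hn
      have d1 := hode t ht n (by omega) h2.le
      have d2 := hode t ht (n+1) (by omega) h2
      unfold gE
      exact (((d1.const_mul (tau ρ)).const_add (m n*(1-tau ρ*xg ρ))).add_const (27/1000)).sub d2)
    (fun t ht => by
      unfold en
      refine HasDerivWithinAt.const_sub _ (HasDerivWithinAt.fun_sum fun n hn => ?_)
      obtain ⟨h1, h2⟩ := Finset.mem_Icc.1 hn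
      refine (((hode t ht n h1 (by omega)).pow 2).div_const ((L*ρ)^n)).congr_deriv ?_
      simp)
    (fun n hn => by
      obtain ⟨h1, h2⟩ := Finset.mem_Icc.1 hn
      linarith [(abs_le.1 (hinit n h1 h2)).2, hm n])
    (fun n hn => by
      obtain ⟨h1, h2⟩ := Finset.mem_Icc.1 hn
      linarith [(abs_le.1 (hinit n h1 h2)).1])
    (fun n hn => by
      obtain ⟨h1, h2⟩ := Finset.mem_Ico.1 hn
      exact gC_small hρ0 hρ1 (hm n) ((hinit n h1 h2.le).trans (by norm_num))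
        (abs_le.1 (hinit (n+1) (by omega) h2)).1)
    (fun n hn => by
      obtain ⟨h1, h2⟩ := Finset.mem_Ico.1 hn
      exact gE_static (M := 1/200) hρ1 (by linarith [hm n]) (abs_le.1 (hinit n h1 h2.le)).1
        (abs_le.1 (hinit (n+1) (by omega) h2)).2 (by norm_num))
    (by
      have : en (L*ρ) k (Y 0) = en (L*ρ) k y := Finset.sum_congr rfl fun n hn => by
        obtain ⟨h1, h2⟩ := Finset.mem_Icc.1 hn
        rw [hi n h1 (by omega)]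
      linarith)
    (fun t ht h1 h2 h3 h4 h5 => by
      have hc1 := hc t ht fun n => (hbd t h1 h2 h5 n).1
      have hreg := reg_of hρ0 hρ1 hm hstep (hm0 N hN) (by omega) hMk (hM (Y t) (hz t) h5)
        (htop t) h1 h2 h3 h4
      have hin := hreg.inward hν hL hρ0 hρ1 hm hanti (hf t ht.1)
      simp only [hc1, one_mul]
      refine ⟨hin.1, hin.2.1, hin.2.2.1, hin.2.2.2, fun h6 => neg_pos.2 ?_⟩
      exact flux_neg hν (by linarith) hρ0 (Y t) (f t) (hz t) hk (hreg.low _ (by omega))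
        (hΦ t ht.1) (by linarith))
  refine ⟨Y, ⟨hi, hz, fun t ht n h1 h2 => ?_⟩, fun t ht => ?_⟩
  · obtain ⟨h3, h4, h5⟩ := key t ht
    have hc1 := hc t ht fun n => (hbd t h3 h4 h5 n).1
    simpa [hc1] using hode t ht n h1 h2
  · obtain ⟨h3, h4, h5⟩ := key t ht
    exact hbd t h3 h4 h5

end

end Pool.Agent.Work.MP_6bf1e5_an.Dy
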