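import Pool.Agent.Work.MP_6bf1e5_an.Dy.Boot
import Pool.Agent.Work.MP_6bf1e5_an.Dy.Defs
import Pool.Agent.Work.MP_6bf1e5_an.En.Split

/-! Global well-posedness of the viscous dyadic model: return to the original variables. -/

namespace Pool.Agent.Work.MP_6bf1e5_an.Dy

open Set Filter Topology

noncomputable section

theorem scale_id {ν μ L : ℝ} (hν : 0 < ν) (hμ : 0 < μ) (hL : 0 < L) (X g : ℕ → ℝ) (n : ℕ) :
    FF ν L (μ^2/L) (fun n => μ^n/(ν*μ) * X n) (fun n => (μ/L)^n/(ν^2*μ) * g n) (n+1)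
      = μ^(n+1)/(ν*μ) * (-ν * L^(n+1) * X (n+1) + (μ*L)^n * X n^2
        - (μ*L)^(n+1) * X (n+1) * X (n+2) + g (n+1)) := by
  simp only [FF, DD, Nat.add_sub_cancel, mul_pow, div_pow, pow_succ]
  field_simp
  ring

theorem rpow_mul_nat {lam : ℝ} (h : 0 < lam) (γ : ℝ) (n : ℕ) : lam ^ (γ * n) = (lam ^ γ) ^ n :=
  Real.rpow_mul_natCast h.le γ n

theorem solves_iff {lam β ν : ℝ} (hlam : 0 < lam) (hν : 0 < ν) (f X : ℝ → ℕ → ℝ) (S : Set ℝ) :
    DyadicSolvesOn lam β ν f S X ↔ ∀ t ∈ S,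
      (lam^(β-2))^0/(ν*lam^(β-2)) * X t 0 = 0 ∧ ∀ n, 1 ≤ n →
      HasDerivWithinAt (fun s => (lam^(β-2))^n/(ν*lam^(β-2)) * X s n)
        (FF ν (lam^2) ((lam^(β-2))^2/lam^2) (fun n => (lam^(β-2))^n/(ν*lam^(β-2)) * X t n)
          (fun n => (lam^(β-2)/lam^2)^n/(ν^2*lam^(β-2)) * f t n) n) (Ici 0) t := by
  have hμ : 0 < lam^(β-2) := Real.rpow_pos_of_pos hlam _
  have hκ : lam^β = lam^(β-2) * lam^2 := by
    rw [← Real.rpow_natCast lam 2, ← Real.rpow_add hlam]; norm_num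
  have hs : ∀ n, (lam^(β-2))^n/(ν*lam^(β-2)) ≠ 0 := fun n => by positivity
  refine forall₂_congr fun t _ => and_congr (by simp [hν.ne', hμ.ne']) ?_
  have e : ∀ n : ℕ, lam ^ (β * (n + 1)) = (lam^(β-2) * lam^2)^(n+1) := fun n => by
    rw [← hκ, ← rpow_mul_nat hlam]; norm_num
  constructor
  · intro h n hn
    obtain ⟨n, rfl⟩ : ∃ j, n = j+1 := ⟨n-1, by omega⟩
    rw [scale_id hν hμ (by positivity)]
    have := h n
    rw [e, rpow_mul_nat hlam, hκ, pow_mul] at this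
    exact this.const_mul _
  · intro h n
    have := h (n+1) (by omega)
    rw [scale_id hν hμ (by positivity)] at this
    rw [e, rpow_mul_nat hlam, hκ, pow_mul]
    have h2 := this.const_mul ((lam^(β-2))^(n+1)/(ν*lam^(β-2)))⁻¹
    simpa only [← mul_assoc, inv_mul_cancel₀ (hs _), one_mul] using h2

theorem weight_iff {a b c x C : ℝ} (ha : 0 < a) (hb : 0 < b) (hc : 0 < c) (n : ℕ) :
    |a^n/c * x| ≤ C / (b/a)^n ↔ b^n * |x| ≤ C * c := by
  rw [abs_mul, abs_of_pos (by positivity : 0 < a^n/c), le_div_iff₀ (by positivity), div_pow,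
    ← div_le_iff₀ hc]
  have : a^n/c * |x| * (b^n/a^n) = b^n * |x| / c := by field_simp
  rw [this]

theorem weight_iff' {a c x C : ℝ} (ha : 0 < a) (hc : 0 < c) (n : ℕ) :
    |a^n/c * x| ≤ C ↔ a^n * |x| ≤ C * c := by
  rw [← weight_iff ha ha hc, div_self ha.ne', one_pow, div_one]

theorem main (lam β ν : ℝ) (hlam : 1 < lam) (hβ : β ≤ 5/2 ∨ (2 ≤ lam ∧ β ≤ 3)) (hν : 0 < ν)
    (x : ℕ → ℝ) (hx0 : x 0 = 0)
    (hx : Tendsto (fun n : ℕ => lam ^ ((β - 2) * n) * x n) atTop (𝓝 0))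
    (f : ℝ → ℕ → ℝ) (hfc : ∀ n, ContinuousOn (fun t => f t n) (Ici 0))
    (hfb : WeightBounded lam (β - 4) (Ici 0) f) (hfv : WeightVanishes lam (β - 4) (Ici 0) f) :
    ∃ X : ℝ → ℕ → ℝ, DyadicSolvesOn lam β ν f (Ici 0) X ∧ X 0 = x ∧
      WeightVanishes lam (β - 2) (Ici 0) X ∧
      (∀ γ : ℝ, WeightBounded lam (γ - 2) (Ici 0) f →
        (WeightBounded lam γ {0} X → WeightBounded lam γ (Ici 0) X) ∧
        ∀ τ : ℝ, 0 < τ → WeightBounded lam γ (Ici τ) X) ∧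
      ∀ (T : ℝ) (Z : ℝ → ℕ → ℝ), DyadicSolvesOn lam β ν f (Icc 0 T) Z → Z 0 = x →
        WeightVanishes lam (β - 2) (Icc 0 T) Z → ∀ t ∈ Icc 0 T, Z t = X t := by
  have hl : 0 < lam := by linarith
  have hμ : 0 < lam^(β-2) := Real.rpow_pos_of_pos hl _
  have hdiv : ∀ γ : ℝ, lam^(γ-2) = lam^γ/lam^2 := fun γ => by
    rw [Real.rpow_sub hl, ← Real.rpow_natCast lam 2]; norm_num
  have hμ4 : lam^(β-4) = lam^(β-2)/lam^2 := by
    rw [← hdiv]; congr 1; ring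
  have hL : 1 < lam^2 := by nlinarith
  have hcase : 4 ≤ lam^2 ∨ (lam^2 ≤ 4 ∧ ((lam^(β-2))^2/lam^2)^2 * lam^2 ≤ 1) := by
    rcases le_total 2 lam with h | h
    · exact Or.inl (by nlinarith)
    rcases hβ with h' | h'
    · refine Or.inr ⟨by nlinarith, ?_⟩
      have h1 : (lam^(β-2))^2 ≤ lam := by
        rw [← Real.rpow_natCast, ← Real.rpow_mul hl.le]
        simpa using Real.rpow_le_rpow_of_exponent_le hlam.le
          (by push_cast; linarith : (β-2) * (2:ℕ) ≤ 1)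
      have h2 := pow_le_pow_left₀ (by positivity) h1 2
      rw [div_pow, div_mul_eq_mul_div, div_le_one (by positivity)]
      nlinarith [mul_le_mul_of_nonneg_right h2 (by positivity : 0 ≤ lam^2)]
    · exact Or.inl (by nlinarith [h'.1])
  have hβ : β ≤ 3 := by rcases hβ with h | h <;> linarith [h]
  have hρ1 : (lam^(β-2))^2/lam^2 ≤ 1 := by
    rw [div_le_one (by positivity)]
    refine pow_le_pow_left₀ hμ.le ?_ 2
    simpa using Real.rpow_le_rpow_of_exponent_le (by linarith : 1 ≤ lam) (by linarith : β - 2 ≤ 1)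
  have hiff := fun X S => solves_iff (β := β) hl hν f X S
  simp only [WeightBounded, WeightVanishes, rpow_mul_nat hl, hμ4] at hx hfb hfv ⊢
  generalize lam^(β-2) = μ at *
  have hρ0 : 0 < μ^2/lam^2 := by positivity
  have hc : 0 < ν*μ := by positivity
  have hc2 : 0 < ν^2*μ := by positivity
  have hμL : 0 < μ/lam^2 := by positivity
  have hs : ∀ n : ℕ, μ^n/(ν*μ) ≠ 0 := fun n => by positivity
  have hy : ∀ ε > 0, ∃ k, ∀ n, k ≤ n → |μ^n/(ν*μ) * x n| ≤ ε := by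
    intro ε hε
    obtain ⟨k, hk⟩ := Metric.tendsto_atTop.1 hx (ε*(ν*μ)) (by positivity)
    refine ⟨k, fun n hn => (weight_iff' hμ hc n).2 ?_⟩
    have := hk n hn
    rw [Real.dist_eq, sub_zero, abs_mul, abs_of_pos (by positivity)] at this
    exact this.le
  have hg : ∀ ε > 0, ∃ k, ∀ n, k ≤ n → ∀ t, 0 ≤ t → |(μ/lam^2)^n/(ν^2*μ) * f t n| ≤ ε := by
    intro ε hε
    obtain ⟨k, hk⟩ := hfv (ε*(ν^2*μ)) (by positivity)
    exact ⟨k, fun n hn t ht => (weight_iff' hμL hc2 n).2 (hk n hn t ht)⟩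
  obtain ⟨Φ, hΦ⟩ := hfb
  have hΦ' : ∀ t, 0 ≤ t → ∀ n, |(μ/lam^2)^n/(ν^2*μ) * f t n| ≤ Φ/(ν^2*μ) := fun t ht n =>
    (weight_iff' hμL hc2 n).2 (by rw [div_mul_cancel₀ _ hc2.ne']; exact hΦ t ht n)
  obtain ⟨Y, B, n0, hY, hY0, hb⟩ := exists_sol hν hL hρ0 hρ1
    (fun n => μ^n/(ν*μ) * x n) (by simp [hx0]) (fun t n => (μ/lam^2)^n/(ν^2*μ) * f t n)
    (fun n => continuousOn_const.mul (hfc n)) hΦ' (by
      rcases hcase with h | h
      · obtain ⟨k1, hk1⟩ := hy (1/200) (by norm_num)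
        obtain ⟨k2, hk2⟩ := hg (1/2000) (by norm_num)
        exact gal_bound hν h hρ0 hρ1 _ _ (fun n => continuousOn_const.mul (hfc n))
          (k := k1+k2+1) (by omega) (fun n hn => hk1 n (by omega))
          (fun t ht n hn => hk2 n (by omega) t ht) hΦ'
      · exact En.gal_bound2 hν hL h.1 hρ0 h.2 _ _ (fun n => continuousOn_const.mul (hfc n))
          hy hg hΦ')
  have htail := hY.tail hν hL hρ0 hρ1 (fun t ht n => (hb t ht n).2) (by rw [hY0]; exact hy) hg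
  obtain ⟨X, hX⟩ : ∃ X : ℝ → ℕ → ℝ, Y = fun t n => μ^n/(ν*μ) * X t n :=
    ⟨fun t n => (μ^n/(ν*μ))⁻¹ * Y t n, by
      funext t n; rw [← mul_assoc, mul_inv_cancel₀ (hs n), one_mul]⟩
  subst hX
  have hX0 : X 0 = x := funext fun n => mul_left_cancel₀ (hs n) (congrFun hY0 n)
  refine ⟨X, (hiff X _).2 fun t ht => ⟨hY.zero t ht, hY.ode t ht⟩, hX0, fun ε hε => ?_,
    fun γ ⟨C2, hC2⟩ => ?_, fun T Z hZ hZ0 hZv t ht => ?_⟩
  · obtain ⟨k, hk⟩ := htail (ε/(ν*μ)) (by positivity)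
    refine ⟨k, fun n hn t ht => ?_⟩
    have := (weight_iff' hμ hc n).1 (hk n hn t ht)
    rwa [div_mul_cancel₀ _ hc.ne'] at this
  · have hγ : 0 < lam^γ := Real.rpow_pos_of_pos hl _
    have hf2 : ∀ t, 0 ≤ t → ∀ n, |(μ/lam^2)^n/(ν^2*μ) * f t n| ≤ C2/(ν^2*μ) / (lam^γ/μ)^n := by
      intro t ht n
      have e : lam^γ/μ = (lam^γ/lam^2)/(μ/lam^2) := by field_simp
      rw [e, weight_iff hμL (by positivity) hc2, div_mul_cancel₀ _ hc2.ne', ← hdiv]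
      exact hC2 t ht n
    refine ⟨fun ⟨C1, hC1⟩ => ?_, fun τ hτ => ?_⟩
    · obtain ⟨C, hC⟩ := hY.persist hν hL hρ0 hρ1 (fun t ht n => (hb t ht n).1) htail
        (C1 := C1/(ν*μ)) (by positivity : 0 < lam^γ/μ)
        (fun n => (weight_iff hμ hγ hc n).2 (by
          rw [div_mul_cancel₀ _ hc.ne']; exact hC1 0 rfl n)) hf2
      exact ⟨C*(ν*μ), fun t ht n => (weight_iff hμ hγ hc n).1 (hC t ht n)⟩
    · obtain ⟨C, hC⟩ := hY.smooth hν hL hρ0 hρ1 (fun t ht n => (hb t ht n).1) htail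
        (by positivity : 0 < lam^γ/μ) hτ hf2
      exact ⟨C*(ν*μ), fun t ht n => (weight_iff hμ hγ hc n).1 (hC t ht n)⟩
  · have hZ' : SolOn ν (lam^2) (μ^2/lam^2) (fun t n => (μ/lam^2)^n/(ν^2*μ) * f t n) T
        (fun t n => μ^n/(ν*μ) * Z t n) :=
      ⟨fun t ht => ((hiff Z _).1 hZ t ht).1, fun t ht => ((hiff Z _).1 hZ t ht).2⟩
    obtain ⟨k3, hk3⟩ := htail (1/8) (by norm_num)
    obtain ⟨k4, hk4⟩ := hZv (1/8*(ν*μ)) (by positivity)
    have := hZ'.unique (hY.on T) hν hL hρ0 hρ1 (by funext n; simp only [hZ0, hX0])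
      (k := k3+k4) (fun n hn t ht => (weight_iff' hμ hc n).2 (hk4 n (by omega) t ht))
      (fun n hn t ht => hk3 n (by omega) t ht.1) t ht
    exact funext fun n => mul_left_cancel₀ (hs n) (congrFun this n)

end

end Pool.Agent.Work.MP_6bf1e5_an.Dy
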