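import Mathlib

/-! Polynomials entering the invariant region for the viscous dyadic model. -/

namespace Pool.Agent.Work.MP_6bf1e5_an.Dy

noncomputable section

def sig (ρ : ℝ) : ℝ := 53/50 + 2/5*(1-ρ)
def xg (ρ : ℝ) : ℝ := 1 - 4/25*(1-ρ) - 23/50*(1-ρ)^2
def Yc (ρ h X : ℝ) : ℝ := ρ*(sig ρ*X^2 - (sig ρ-1)) - 22/25*h
def Zb (ρ h Y : ℝ) : ℝ := 1 - 27/50*xg ρ + 27/50*Y + 27/1000*h
def T1C (ρ h X Z : ℝ) : ℝ :=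
  ρ*X^2 - (Yc ρ h X + h/200)*Z - h^2/40000 - h*Yc ρ h X - h^2/2000
def sw1 (ρ h X : ℝ) : ℝ := (1+h/200)*(X + 22/25*h + ρ*(sig ρ-1)*(1+h/200))
def sw2 (ρ h : ℝ) : ℝ := ρ*sig ρ*(1+h/200)^2
def PC (ρ h X Z S : ℝ) : ℝ :=
  4*T1C ρ h X Z - 2*ρ*X*(S - sig ρ*(X*Yc ρ h X + h*X - h^2/2000)) - ρ*h/100
def T1E (ρ h ξ : ℝ) : ℝ :=
  -(ρ*(xg ρ-h/20-ξ)^2 - (1-27/50*ξ)*Yc ρ h (1-27/50*ξ) - h*(1-27/50*ξ) + h^2/2000)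
def PE (ρ h ξ : ℝ) : ℝ :=
  4*T1E ρ h ξ + ρ*(2*(xg ρ-h/20-ξ)^2*((xg ρ-h/20-ξ) - 27/1000*h - (1+h/200)*(1-27/50*xg ρ))
      - 27/50*(xg ρ-h/20-ξ)^4)
    + 27/50*(-(xg ρ-h/20-ξ)*(1-27/50*ξ) - h*(xg ρ-h/20-ξ) - h^2/2000) - h/100

def bz : List ℝ → ℝ → ℝ
  | [], _ => 0
  | c :: l, a => c * (1-a)^l.length + a * bz l a

theorem bz_nonneg {a : ℝ} (ha : 0 ≤ a) (ha1 : a ≤ 1) :
    ∀ l : List ℝ, (∀ c ∈ l, 0 ≤ c) → 0 ≤ bz l a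
  | [], _ => le_rfl
  | c :: l, h => by
    have h1 := h c (by simp)
    have h2 := bz_nonneg ha ha1 l (fun d hd => h d (by simp [hd]))
    have h3 : 0 ≤ 1 - a := by linarith
    unfold bz
    positivity

def bz3 (T : List (List (List ℕ))) (a r v : ℝ) : ℝ :=
  bz (T.map fun M => bz (M.map fun l => bz (l.map fun c : ℕ => (c : ℝ)) v) r) a

theorem bz3_nonneg (T : List (List (List ℕ))) {a r v : ℝ} (ha : 0 ≤ a) (ha1 : a ≤ 1)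
    (hr : 0 ≤ r) (hr1 : r ≤ 1) (hv : 0 ≤ v) (hv1 : v ≤ 1) : 0 ≤ bz3 T a r v := by
  unfold bz3
  refine bz_nonneg ha ha1 _ fun c hc => ?_
  obtain ⟨M, -, rfl⟩ := List.mem_map.1 hc
  refine bz_nonneg hr hr1 _ fun c hc => ?_
  obtain ⟨l, -, rfl⟩ := List.mem_map.1 hc
  refine bz_nonneg hv hv1 _ fun c hc => ?_
  obtain ⟨k, -, rfl⟩ := List.mem_map.1 hc
  exact Nat.cast_nonneg k

end

end Pool.Agent.Work.MP_6bf1e5_an.Dy
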